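import Pool.Agent.H89.FP.Lift

/-!
MP_fd220b_nt: a fraction `w / q` with `q ≥ p` lies between two adjacent Farey fractions of order `p - 1`;
symmetry `w → - w` of the sums `SS`.
-/

set_option autoImplicit false

namespace Pool.Agent.H89.FP

open Finset

theorem farey_aux {p q w : ℤ} (hpq : p ≤ q) (hcop : IsCoprime w q) (n : ℕ) :
    ∀ a b a2 b2 : ℤ, p ≤ b + b2 + n → a2 * b - a * b2 = 1 → 0 ≤ a → 1 ≤ b → 1 ≤ b2 → b < p → b2 < p →
      0 < b * w - a * q → 0 < a2 * q - b2 * w →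
      ∃ a b a2 b2 : ℤ, p ≤ b + b2 ∧ a2 * b - a * b2 = 1 ∧ 0 ≤ a ∧ 1 ≤ b ∧ 1 ≤ b2 ∧ b < p ∧ b2 < p ∧
        0 < b * w - a * q ∧ 0 < a2 * q - b2 * w := by
  induction n with
  | zero =>
    intro a b a2 b2 h1 h2 h3 h4 h5 h6 h7 h8 h9
    exact ⟨a, b, a2, b2, by simpa using h1, h2, h3, h4, h5, h6, h7, h8, h9⟩
  | succ n ih =>
    intro a b a2 b2 h1 h2 h3 h4 h5 h6 h7 h8 h9
    by_cases hbb : p ≤ b + b2
    · exact ⟨a, b, a2, b2, hbb, h2, h3, h4, h5, h6, h7, h8, h9⟩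
    push Not at hbb
    push_cast at h1
    have ha2 : 0 < a2 := by
      by_contra h
      push Not at h
      nlinarith
    rcases lt_trichotomy ((b + b2) * w - (a + a2) * q) 0 with h | h | h
    · exact ih a b (a + a2) (b + b2) (by omega) (by linarith) h3 h4 (by omega) h6 hbb h8 (by linarith)
    · exfalso
      have e1 : (b + b2) * w = (a + a2) * q := by linarith
      have d1 : q ∣ (b + b2) := by
        have : q ∣ (b + b2) * w := ⟨a + a2, by linarith⟩
        exact hcop.symm.dvd_of_dvd_mul_right this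
      have := Int.le_of_dvd (by omega) d1
      omega
    · exact ih (a + a2) (b + b2) a2 b2 (by omega) (by linarith) (by omega) (by omega) h5 hbb h7 (by linarith) h9

theorem farey {p q w : ℤ} (hp : 2 ≤ p) (hpq : p ≤ q) (hcop : IsCoprime w q) (hw0 : 0 < w) (hwq : w < q) :
    ∃ a b a2 b2 : ℤ, p ≤ b + b2 ∧ a2 * b - a * b2 = 1 ∧ 0 ≤ a ∧ 1 ≤ b ∧ 1 ≤ b2 ∧ b < p ∧ b2 < p ∧
      0 < b * w - a * q ∧ 0 < a2 * q - b2 * w :=
  farey_aux hpq hcop p.toNat 0 1 1 1 (by omega) (by norm_num) le_rfl le_rfl le_rfl (by omega) (by omega)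
    (by linarith) (by linarith)

theorem tt_congr {p q w w' j j' e : ℤ} (h : j - w * e ≡ j' - w' * e [ZMOD p * q]) :
    tt p q w j e = tt p q w' j' e := h

theorem SS_congr {p : ℕ} {q lam w w' T j j' : ℤ} (h : w ≡ w' [ZMOD p * q]) (hj : j ≡ j' [ZMOD p * q]) :
    SS p q lam w T j = SS p q lam w' T j' := by
  unfold SS
  refine Finset.sum_congr rfl fun e _ => ?_
  rw [tt_congr (hj.sub (h.mul_right e)), tt_congr ((hj.sub (h.mul_right q)).sub (h.mul_right e))]

theorem SS_neg {p : ℕ} (q lam w T j : ℤ) :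
    SS p q lam (-w) T j = -SS p q lam w T (j + w * q + w * (p - 1)) := by
  unfold SS
  rw [← Finset.sum_neg_distrib, ← Finset.sum_range_reflect]
  refine Finset.sum_congr rfl fun e he => ?_
  rw [mem_range] at he
  have hc : ((p - 1 - e : ℕ) : ℤ) = p - 1 - e := by
    rw [Nat.sub_sub, Nat.cast_sub (by omega)]
    push_cast
    ring
  rw [hc]
  have e1 : tt p q (-w) j (p - 1 - e) = tt p q w (j + w * q + w * (p - 1) - w * q) e := by
    unfold tt
    congr 1
    ring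
  have e2 : tt p q (-w) (j - -w * q) (p - 1 - e) = tt p q w (j + w * q + w * (p - 1)) e := by
    unfold tt
    congr 1
    ring
  rw [e1, e2]
  ring

/-- there is a value of absolute value at least two -/
def Big (p : ℕ) (q lam w : ℤ) : Prop :=
  ∃ j T : ℤ, 0 ≤ T ∧ T < p * q ∧ 2 ≤ |SS p q lam w T j|

theorem Vio.big {p : ℕ} {q lam w : ℤ} (h : Vio p q lam w) : Big p q lam w := by
  obtain ⟨j, T, f, _, h1, h2, _, h3⟩ := h
  exact ⟨j, T, h1, h2, h3⟩

theorem Big.congr {p : ℕ} {q lam w w' : ℤ} (h : Big p q lam w) (hw : w ≡ w' [ZMOD p * q]) :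
    Big p q lam w' := by
  obtain ⟨j, T, h1, h2, h3⟩ := h
  exact ⟨j, T, h1, h2, by rwa [← SS_congr hw (Int.ModEq.refl j)]⟩

theorem Big.neg {p : ℕ} {q lam w : ℤ} (h : Big p q lam (-w)) : Big p q lam w := by
  obtain ⟨j, T, h1, h2, h3⟩ := h
  rw [SS_neg, abs_neg] at h3
  exact ⟨j + w * q + w * (p - 1), T, h1, h2, h3⟩

end Pool.Agent.H89.FP
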