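import Pool.Agent.H89.FP.Lift

/-!
MP_fd220b_nt: the lifting lemma. A value `≥ 2` for the small parameters `A', B'` gives one for all larger
parameters `A, B` in the same residue classes mod `p`.
-/

set_option autoImplicit false

namespace Pool.Agent.H89.FP

open Finset

theorem lift {p : ℕ} {a b a2 b2 A B A' B' c lam : ℤ} (hp : 2 ≤ p) (h1 : a2 * b - a * b2 = 1) (hb : 1 ≤ b)
    (hb2 : 1 ≤ b2) (hbb : (p : ℤ) ≤ b + b2) (hA : 1 ≤ A') (hAA : A' ≤ A) (hB : 1 ≤ B') (hBB : B' ≤ B)
    (cA : A ≡ A' [ZMOD p]) (cB : B ≡ B' [ZMOD p])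
    (hl : (b2 * A' + b * B') * lam ≡ 1 [ZMOD p])
    (hv : Vio p (b2 * A' + b * B') lam ((a2 * A' + a * B') + c * (b2 * A' + b * B'))) :
    Vio p (b2 * A + b * B) lam ((a2 * A + a * B) + c * (b2 * A + b * B)) := by
  have hp0 : (0 : ℤ) < p := by omega
  have hp1 : (1 : ℤ) < p := by omega
  -- monotonicity
  have mm := fun s t : ℤ => fun hs : s < p => fun hs' : -(p : ℤ) < s =>
    mono (t := t) h1 hb hb2 hbb hs hs' hA hAA hB hBB
  have cq : b2 * A + b * B ≡ b2 * A' + b * B' [ZMOD p] := (cA.mul_left b2).add (cB.mul_left b)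
  have cw : a2 * A + a * B ≡ a2 * A' + a * B' [ZMOD p] := (cA.mul_left a2).add (cB.mul_left a)
  have hq'0 : 0 < b2 * A' + b * B' := by nlinarith
  have hq0 : 0 < b2 * A + b * B := by nlinarith
  set q' := b2 * A' + b * B' with hq'
  set q := b2 * A + b * B with hq
  set w' := a2 * A' + a * B' with hw'
  set w := a2 * A + a * B with hw
  clear_value q' q w' w
  obtain ⟨j', T', f, hf, hT0, hT1, hTf, hS⟩ := hv
  have hl2 : q * lam ≡ 1 [ZMOD p] := (cq.mul_right lam).trans hl
  -- columns and borrows of the small instance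
  set κ := j' / q' with hκ
  set z := j' % q' with hz
  have hj' : j' = κ * q' + z := by
    rw [hκ, hz]
    have := Int.emod_add_mul_ediv j' q'
    linarith
  set bo : ℕ → ℤ := fun e => -((z - e * w') / q') with hbo
  set co' : ℕ → ℤ := fun e => (z - e * w') % q' with hco'
  have hco : ∀ e : ℕ, co' e = z - e * w' + bo e * q' := by
    intro e
    have := Int.emod_add_mul_ediv (z - e * w') q'
    simp only [hbo, hco']
    linarith
  have hco0 : ∀ e : ℕ, 0 ≤ co' e := fun e => Int.emod_nonneg _ hq'0.ne'
  have hco1 : ∀ e : ℕ, co' e < q' := fun e => Int.emod_lt_of_pos _ hq'0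
  clear_value bo co' κ z
  have hne : (range p).Nonempty := ⟨f, mem_range.2 hf⟩
  obtain ⟨g, hg, hmin⟩ := Finset.exists_min_image (range p) co' hne
  rw [mem_range] at hg
  -- the large instance
  set co : ℕ → ℤ := fun e => ((g : ℤ) - e) * w + (bo e - bo g) * q + co' g with hcol
  have hdiff' : ∀ e f : ℕ, co' e - co' f = ((f : ℤ) - e) * w' + (bo e - bo f) * q' := by
    intro e f
    rw [hco e, hco f]
    ring
  have hdiff : ∀ e f : ℕ, co e - co f = ((f : ℤ) - e) * w + (bo e - bo f) * q := by
    intro e f
    simp only [hcol]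
    ring
  have rng : ∀ {e f : ℕ}, e < p → f < p → (f : ℤ) - e < p ∧ -(p : ℤ) < (f : ℤ) - e := by
    intro e f he hf
    constructor <;> omega
  have hw2 : ∀ s t : ℤ, s < p → -(p : ℤ) < s →
      (0 ≤ s * w' + t * q' → s * w' + t * q' ≤ s * w + t * q) ∧
      (s * w' + t * q' ≤ 0 → s * w + t * q ≤ s * w' + t * q') := by
    intro s t hs hs'
    exact mm s t hs hs'
  have c0 : ∀ e : ℕ, e < p → 0 ≤ co e := by
    intro e he
    have h2 := hmin e (mem_range.2 he)
    have h3 : 0 ≤ ((g : ℤ) - e) * w' + (bo e - bo g) * q' := by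
      rw [← hdiff' e g]
      linarith
    have h4 := (hw2 _ (bo e - bo g) (rng he hg).1 (rng he hg).2).1 h3
    have h5 := hco0 g
    simp only [hcol]
    linarith
  have c1 : ∀ e : ℕ, e < p → co e < q := by
    intro e he
    have h3 : ((g : ℤ) - e) * w' + (bo e - bo g - 1) * q' < -co' g := by
      have h6 := hdiff' e g
      have h7 := hco1 e
      have e1 : ((g : ℤ) - e) * w' + (bo e - bo g - 1) * q' = co' e - co' g - q' := by
        rw [h6]
        ring
      rw [e1]
      linarith
    have h5 := hco0 g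
    have h4 := (hw2 _ (bo e - bo g - 1) (rng he hg).1 (rng he hg).2).2 (by linarith)
    have e2 : co e = ((g : ℤ) - e) * w + (bo e - bo g - 1) * q + q + co' g := by
      simp only [hcol]
      ring
    rw [e2]
    linarith
  have ccong : ∀ e : ℕ, co e ≡ co' e [ZMOD p] := by
    intro e
    have e1 : co' e = ((g : ℤ) - e) * w' + (bo e - bo g) * q' + co' g := by
      have := hdiff' e g
      linarith
    rw [e1]
    simp only [hcol]
    exact ((cw.mul_left _).add (cq.mul_left _)).add_right _
  have ccmp : ∀ e f : ℕ, e < p → f < p → (co e ≤ co f ↔ co' e ≤ co' f) := by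
    intro e f he hf
    constructor
    · intro h
      by_contra h2
      push Not at h2
      have h3 : 0 < ((f : ℤ) - e) * w' + (bo e - bo f) * q' := by
        rw [← hdiff' e f]
        linarith
      have h4 := (hw2 _ (bo e - bo f) (rng he hf).1 (rng he hf).2).1 h3.le
      rw [← hdiff e f] at h4
      linarith
    · intro h
      have h3 : ((f : ℤ) - e) * w' + (bo e - bo f) * q' ≤ 0 := by
        rw [← hdiff' e f]
        linarith
      have h4 := (hw2 _ (bo e - bo f) (rng he hf).1 (rng he hf).2).2 h3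
      rw [← hdiff e f] at h4
      linarith
  clear_value co
  -- the times
  set W' := w' + c * q' with hW'
  set W := w + c * q with hW
  have cW : W ≡ W' [ZMOD p] := cw.add (cq.mul_left c)
  have t1' : ∀ e : ℕ, tt p q' W' j' e = ((κ - e * c - bo e) % p) * q' + co' e := by
    intro e
    unfold tt
    have e1 : j' - W' * e = (κ - e * c - bo e) * q' + co' e := by
      rw [hco e, hj', hW']
      ring
    rw [e1]
    exact row_emod hp0 (hco0 e) (hco1 e)
  have t2' : ∀ e : ℕ, tt p q' W' (j' - W' * q') e = ((κ - e * c - bo e - W') % p) * q' + co' e := by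
    intro e
    unfold tt
    have e1 : j' - W' * q' - W' * e = (κ - e * c - bo e - W') * q' + co' e := by
      rw [hco e, hj']
      have : W' * (e : ℤ) = w' * e + c * q' * e := by rw [hW']; ring
      linear_combination -this
    rw [e1]
    exact row_emod hp0 (hco0 e) (hco1 e)
  set j := κ * q + ((g : ℤ) * w - bo g * q + co' g) with hj
  have hcoe : ∀ e : ℕ, co e = ((g : ℤ) - e) * w + (bo e - bo g) * q + co' g := by
    intro e
    have h6 := hdiff e g
    have h7 := hdiff g g
    have h8 : co g = co' g := by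
      have := hcol
      exact congrFun this g ▸ by simp
    rw [h8] at h6
    linarith
  have t1 : ∀ e : ℕ, e < p → tt p q W j e = ((κ - e * c - bo e) % p) * q + co e := by
    intro e he
    unfold tt
    have e1 : j - W * e = (κ - e * c - bo e) * q + co e := by
      rw [hcoe e, hj, hW]
      ring
    rw [e1]
    exact row_emod hp0 (c0 e he) (c1 e he)
  have t2 : ∀ e : ℕ, e < p → tt p q W (j - W * q) e = ((κ - e * c - bo e - W) % p) * q + co e := by
    intro e he
    unfold tt
    have e1 : j - W * q - W * e = (κ - e * c - bo e - W) * q + co e := by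
      rw [hcoe e, hj]
      have : W * (e : ℤ) = w * e + c * q * e := by rw [hW]; ring
      linear_combination -this
    rw [e1]
    exact row_emod hp0 (c0 e he) (c1 e he)
  -- the cut off
  set k := T' / q' with hk
  have hTc : T' = k * q' + co' f := by
    have h2 := Int.emod_add_mul_ediv T' q'
    have h3 : T' % q' = co' f := by
      rw [hTf, t1' f, Int.add_comm, Int.add_mul_emod_self_right]
      exact Int.emod_eq_of_lt (hco0 f) (hco1 f)
    rw [h3] at h2
    rw [hk]
    linarith
  have hk0 : 0 ≤ k := Int.ediv_nonneg hT0 hq'0.le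
  have hk1 : k < p := by
    by_contra h
    push Not at h
    have h2 := hco0 f
    nlinarith
  clear_value k
  refine ⟨j, k * q + co f, f, hf, ?_, ?_, ?_, ?_⟩
  · have := c0 f hf
    positivity
  · have := c1 f hf
    nlinarith
  · rw [t1 f hf, Int.add_comm, Int.add_mul_emod_self_right, Int.add_comm (_ * q),
      Int.add_mul_emod_self_right]
  · have hSS : SS p q lam W (k * q + co f) j = SS p q' lam W' T' j' := by
      unfold SS
      refine Finset.sum_congr rfl fun e he => ?_
      rw [mem_range] at he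
      rw [t1 e he, t2 e he, t1' e, t2' e, hTc]
      have hr : (κ - e * c - bo e - W) % (p : ℤ) = (κ - e * c - bo e - W') % (p : ℤ) := cW.sub_left _
      rw [hr]
      rw [At_eq hp1 (c0 e he) (c1 e he) (hco0 e) (hco1 e) (c0 f hf) (c1 f hf) (hco0 f) (hco1 f) hl2 hl
        (ccong e) (ccmp e f he hf),
        At_eq hp1 (c0 e he) (c1 e he) (hco0 e) (hco1 e) (c0 f hf) (c1 f hf) (hco0 f) (hco1 f) hl2 hl
        (ccong e) (ccmp e f he hf)]
    rw [hSS]
    exact hS

end Pool.Agent.H89.FP
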