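import Pool.Agent.H89.FP.Check
import Pool.Agent.H89.FP.Lift2
import Pool.Agent.H89.FP.Farey

/-!
MP_fd220b_nt: the check of one Farey interval and the reduction of all `q` to these checks.
-/

set_option autoImplicit false

namespace Pool.Agent.H89.FP

open Finset

/-- all numbers below `n` -/
def allB (n : ℕ) (f : ℕ → Bool) : Bool :=
  Nat.rec (motive := fun _ => Bool) true (fun k ih => and (f k) ih) n

theorem allB_spec {n : ℕ} {f : ℕ → Bool} (h : allB n f = true) : ∀ k < n, f k = true := by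
  induction n with
  | zero => intro k hk; omega
  | succ n ih =>
    intro k hk
    have h1 : (f n && allB n f) = true := h
    rw [Bool.and_eq_true] at h1
    rcases Nat.lt_succ_iff_lt_or_eq.1 hk with h2 | h2
    · exact ih h1.2 k h2
    · rw [h2]
      exact h1.1

/-- the small value of `A` -/
def smallA (p a A0 c : ℕ) : ℕ :=
  cond (and (Nat.beq a 0) (and (Nat.beq c 0) (Nat.beq A0 0))) (Nat.succ p) (Nat.succ A0)

/-- excluded residues -/
def skip (p q w : ℕ) : Bool :=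
  or (not (Nat.beq (Nat.gcd q p) 1)) (or (Nat.beq (Nat.mod q p) 1)
    (or (Nat.beq (Nat.mod q p) (Nat.sub p 1)) (not (Nat.beq (Nat.gcd w p) 1))))

/-- the check of one pattern with the certificate `x` -/
def patx (p q w x : ℕ) : Bool :=
  force (Nat.mod x p) fun lam => force (Nat.div x p) fun y =>
    and (Nat.beq (Nat.mod (Nat.mul q lam) p) 1)
      (force (Nat.div y (Nat.mul 2 p)) fun j => force (Nat.mod y (Nat.mul 2 p)) fun f => vioN p q lam w j f)

/-- the check of one pattern -/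
def pat (p a b a2 b2 big A0 B0 c : ℕ) : Bool :=
  force (smallA p a A0 c) fun A =>
    force (Nat.add (Nat.mul b2 A) (Nat.mul b (Nat.succ B0))) fun q =>
      force (Nat.add (Nat.add (Nat.mul a2 A) (Nat.mul a (Nat.succ B0))) (Nat.mul c q)) fun w =>
        cond (skip p q w) true
          (force (Nat.mod (Nat.shiftRight big (Nat.mul 24 (Nat.add (Nat.mul (Nat.add (Nat.mul A0 p) B0) p) c)))
            16777216) fun x => patx p q w x)

/-- the check of one Farey interval -/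
def chkC (p a b a2 b2 big : ℕ) : Bool :=
  allB p fun A0 => allB p fun B0 => allB p fun c => pat p a b a2 b2 big A0 B0 c

theorem smallA_eq (p a A0 c : ℕ) :
    smallA p a A0 c = if a = 0 ∧ c = 0 ∧ A0 = 0 then p + 1 else A0 + 1 := by
  unfold smallA
  by_cases h : a = 0 ∧ c = 0 ∧ A0 = 0
  · obtain ⟨h1, h2, h3⟩ := h
    subst h1 h2 h3
    rfl
  · rw [if_neg h]
    have : (and (Nat.beq a 0) (and (Nat.beq c 0) (Nat.beq A0 0))) = false := by
      rw [Bool.eq_false_iff]
      intro h2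
      apply h
      rw [Bool.and_eq_true, Bool.and_eq_true] at h2
      exact ⟨Nat.eq_of_beq_eq_true h2.1, Nat.eq_of_beq_eq_true h2.2.1, Nat.eq_of_beq_eq_true h2.2.2⟩
    rw [this]
    rfl

theorem beq_ne {a b : ℕ} (h : a ≠ b) : Nat.beq a b = false := by
  rw [Bool.eq_false_iff]
  intro h2
  exact h (Nat.eq_of_beq_eq_true h2)

theorem skip_false {p q w : ℕ} (h1 : Nat.Coprime q p) (h2 : q % p ≠ 1) (h3 : q % p ≠ p - 1)
    (h4 : Nat.Coprime w p) : skip p q w = false := by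
  unfold skip
  have e1 : Nat.gcd q p = 1 := h1
  have e2 : Nat.gcd w p = 1 := h4
  have e3 : Nat.beq (Nat.mod q p) 1 = false := beq_ne h2
  have e4 : Nat.beq (Nat.mod q p) (Nat.sub p 1) = false := beq_ne h3
  rw [e1, e2, e3, e4]
  rfl

theorem pat_sound {p a b a2 b2 big A0 B0 c : ℕ} (hp : 2 ≤ p) (hb : 1 ≤ b) (hb2 : 1 ≤ b2) (hab : a ≤ b)
    (hab2 : a2 ≤ b2) (hc : c < p) (h : pat p a b a2 b2 big A0 B0 c = true)
    {A q w0 : ℕ} (hA : A = if a = 0 ∧ c = 0 ∧ A0 = 0 then p + 1 else A0 + 1) (hq : q = b2 * A + b * (B0 + 1))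
    (hw : w0 = a2 * A + a * (B0 + 1)) (h1 : Nat.Coprime q p) (h2 : q % p ≠ 1) (h3 : q % p ≠ p - 1)
    (h4 : Nat.Coprime (w0 + c * q) p) :
    ∃ lam : ℕ, (q : ℤ) * lam ≡ 1 [ZMOD p] ∧ Vio p q lam ((w0 : ℤ) + c * q) := by
  unfold pat at h
  simp only [force_eq] at h
  rw [smallA_eq, ← hA] at h
  change cond (skip p (b2 * A + b * (B0 + 1)) (a2 * A + a * (B0 + 1) + c * (b2 * A + b * (B0 + 1)))) true
    (patx p (b2 * A + b * (B0 + 1)) (a2 * A + a * (B0 + 1) + c * (b2 * A + b * (B0 + 1))) _) = true at h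
  rw [← hq, ← hw, skip_false h1 h2 h3 h4] at h
  set x := Nat.mod (Nat.shiftRight big (Nat.mul 24 (Nat.add (Nat.mul (Nat.add (Nat.mul A0 p) B0) p) c))) 16777216
  have h5 : patx p q (w0 + c * q) x = true := h
  unfold patx at h5
  simp only [force_eq] at h5
  rw [Bool.and_eq_true] at h5
  obtain ⟨h6, h7⟩ := h5
  have h8 : (q * (x % p)) % p = 1 := Nat.eq_of_beq_eq_true h6
  have hA1 : 1 ≤ A := by
    rw [hA]
    split_ifs <;> omega
  have hq0 : 0 < q := by
    rw [hq]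
    positivity
  have hwq : w0 ≤ q := by
    rw [hq, hw]
    exact Nat.add_le_add (Nat.mul_le_mul_right _ hab2) (Nat.mul_le_mul_right _ hab)
  have hwN : w0 + c * q ≤ p * q := by
    have : (c + 1) * q ≤ p * q := Nat.mul_le_mul_right _ hc
    nlinarith
  refine ⟨x % p, ?_, ?_⟩
  · have h9 : (((q * (x % p) : ℕ) : ℤ)) % p = ((1 : ℕ) : ℤ) := by
      rw [← Int.natCast_mod, h8]
    have h10 : ((1 : ℕ) : ℤ) % p = 1 := by
      rw [Nat.cast_one]
      exact Int.emod_eq_of_lt (by norm_num) (by omega)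
    have h11 : ((q : ℤ) * ((x % p : ℕ) : ℤ)) % p = 1 % p := by
      have e : (q : ℤ) * ((x % p : ℕ) : ℤ) = ((q * (x % p) : ℕ) : ℤ) := by push_cast; rfl
      rw [e, h9]
      simpa using h10.symm
    exact h11
  · have h9 := vioN_sound (p := p) (q := q) (lam := x % p) (w := w0 + c * q)
      (j := Nat.div (Nat.div x p) (Nat.mul 2 p)) (f := Nat.mod (Nat.div x p) (Nat.mul 2 p)) (by omega) hq0
      (Nat.mod_lt _ (by omega)).le hwN (Nat.mod_lt _ (by
        change 0 < 2 * p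
        omega)) h7
    push_cast at h9 ⊢
    exact h9

/-- the checks for `p` -/
def Checked (p : ℕ) : Prop :=
  ∀ a b a2 b2 : ℕ, b < p → b2 < p → 1 ≤ b → 1 ≤ b2 → p ≤ b + b2 → a2 * b = a * b2 + 1 → 2 * a2 ≤ b2 →
    ∃ big, chkC p a b a2 b2 big = true

theorem checked_of {p : ℕ}
    (H : ∀ a b a2 b2 : ℕ, a < p → b < p → a2 < p → b2 < p → 1 ≤ b → 1 ≤ b2 → p ≤ b + b2 → a2 * b = a * b2 + 1 →
      2 * a2 ≤ b2 → ∃ big, chkC p a b a2 b2 big = true) : Checked p := by
  intro a b a2 b2 h1 h2 h3 h4 h5 h6 h7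
  have g1 : a2 ≤ b2 := by omega
  have g2 : a < p := by
    by_contra h
    push Not at h
    have k1 : a2 * b ≤ b2 * b := Nat.mul_le_mul_right _ g1
    have k2 : (b + 1) * b2 ≤ a * b2 := Nat.mul_le_mul_right _ (by omega)
    nlinarith
  exact H a b a2 b2 g2 h1 (by omega) h2 h3 h4 h5 h6 h7

theorem mod_helper {p A : ℕ} (hp : 0 < p) (hA : 1 ≤ A) :
    (A - 1) % p + 1 ≤ A ∧ (A : ℤ) ≡ ((A - 1) % p + 1 : ℕ) [ZMOD p] := by
  constructor
  · have := Nat.mod_le (A - 1) p
    omega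
  · have h1 : (((A - 1) % p + 1 : ℕ) : ℤ) ≡ ((A - 1 + 1 : ℕ) : ℤ) [ZMOD p] := by
      push_cast
      refine Int.ModEq.add_right 1 ?_
      exact Int.mod_modEq _ _
    have e : A - 1 + 1 = A := by omega
    rw [e] at h1
    exact h1.symm

theorem big_half {p : ℕ} (hp : 5 ≤ p) (H : Checked p) {q w0 c : ℕ} (hpq : p < q) (hcop : Nat.Coprime q p)
    (h1 : q % p ≠ 1) (h2 : q % p ≠ p - 1) (hw0 : 0 < w0) (hwq : 2 * w0 < q) (hc : c < p)
    (hcw : Nat.Coprime w0 q) (hcp : Nat.Coprime (w0 + c * q) p) (hne : w0 + c * q ≠ 1) :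
    ∃ lam : ℤ, (q : ℤ) * lam ≡ 1 [ZMOD p] ∧ Big p q lam ((w0 : ℤ) + c * q) := by
  have hp' : (5 : ℤ) ≤ p := by exact_mod_cast hp
  obtain ⟨a, b, a2, b2, f1, f2, f3, f4, f5, f6, f7, f8, f9⟩ := farey (p := p) (q := q) (w := w0) (by omega)
    (by exact_mod_cast hpq.le) (Nat.isCoprime_iff_coprime.2 hcw) (by exact_mod_cast hw0)
    (by exact_mod_cast (by omega : w0 < q))
  have hwq' : 2 * (w0 : ℤ) < q := by exact_mod_cast hwq
  have ha2 : 0 < a2 := by
    by_contra h
    push Not at h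
    nlinarith
  have hA' : ∃ A : ℕ, (A : ℤ) = b * w0 - a * q ∧ 1 ≤ A := by
    obtain ⟨A, hA⟩ := Int.eq_ofNat_of_zero_le f8.le
    refine ⟨A, hA.symm, ?_⟩
    have : (0 : ℤ) < A := by
      rw [← hA]
      exact f8
    exact_mod_cast this
  have hB' : ∃ B : ℕ, (B : ℤ) = a2 * q - b2 * w0 ∧ 1 ≤ B := by
    obtain ⟨B, hB⟩ := Int.eq_ofNat_of_zero_le f9.le
    refine ⟨B, hB.symm, ?_⟩
    have : (0 : ℤ) < B := by
      rw [← hB]
      exact f9
    exact_mod_cast this
  obtain ⟨A, hA, hA1⟩ := hA'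
  obtain ⟨B, hB, hB1⟩ := hB'
  obtain ⟨a, rfl⟩ := Int.eq_ofNat_of_zero_le f3
  obtain ⟨b, rfl⟩ := Int.eq_ofNat_of_zero_le (by linarith : 0 ≤ b)
  obtain ⟨a2, rfl⟩ := Int.eq_ofNat_of_zero_le ha2.le
  obtain ⟨b2, rfl⟩ := Int.eq_ofNat_of_zero_le (by linarith : 0 ≤ b2)
  have g1 : p ≤ b + b2 := by exact_mod_cast f1
  have g2 : a2 * b = a * b2 + 1 := by
    have : (a2 : ℤ) * b = a * b2 + 1 := by linarith
    exact_mod_cast this
  have g4 : 1 ≤ b := by exact_mod_cast f4
  have g5 : 1 ≤ b2 := by exact_mod_cast f5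
  have g6 : b < p := by exact_mod_cast f6
  have g7 : b2 < p := by exact_mod_cast f7
  have hqeq : (q : ℤ) = b2 * A + b * B := by
    rw [hA, hB]
    linear_combination -(q : ℤ) * f2
  have hweq : (w0 : ℤ) = a2 * A + a * B := by
    rw [hA, hB]
    linear_combination -(w0 : ℤ) * f2
  have hA1' : (1 : ℤ) ≤ A := by exact_mod_cast hA1
  have hB1' : (1 : ℤ) ≤ B := by exact_mod_cast hB1
  have g8' : 2 * (a2 : ℤ) ≤ b2 := by
    by_contra h
    push Not at h
    have hX : 1 ≤ 2 * (a2 : ℤ) - b2 := by omega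
    have hXY : (A : ℤ) * (2 * a2 - b2) + B * (2 * a - b) < 0 := by
      have : (A : ℤ) * (2 * a2 - b2) + B * (2 * a - b) = 2 * w0 - q := by
        rw [hqeq, hweq]
        ring
      rw [this]
      linarith
    have hY : 2 * (a : ℤ) - b ≤ -1 := by
      by_contra h3
      push Not at h3
      have : 0 ≤ 2 * (a : ℤ) - b := by omega
      nlinarith
    have e : (b : ℤ) * (2 * a2 - b2) - b2 * (2 * a - b) = 2 := by linear_combination 2 * f2
    nlinarith
  have g8 : 2 * a2 ≤ b2 := by exact_mod_cast g8'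
  have g9 : a2 ≤ b2 := by omega
  have g10 : a ≤ b := by
    by_contra h
    push Not at h
    have h3 : a2 * b ≤ b2 * b := Nat.mul_le_mul_right _ g9
    have h4 : (b + 1) * b2 ≤ a * b2 := Nat.mul_le_mul_right _ h
    nlinarith
  obtain ⟨big, hbig⟩ := H a b a2 b2 g6 g7 g4 g5 g1 g2 g8
  obtain ⟨mA1, mA2⟩ := mod_helper (p := p) (A := A) (by omega) hA1
  obtain ⟨mB1, mB2⟩ := mod_helper (p := p) (A := B) (by omega) hB1
  set A0 := (A - 1) % p with hA0
  set B0 := (B - 1) % p with hB0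
  have hA0p : A0 < p := Nat.mod_lt _ (by omega)
  have hB0p : B0 < p := Nat.mod_lt _ (by omega)
  have hpat := allB_spec (allB_spec (allB_spec hbig A0 hA0p) B0 hB0p) c hc
  set A1 := if a = 0 ∧ c = 0 ∧ A0 = 0 then p + 1 else A0 + 1 with hA1def
  have hAc : (A : ℤ) ≡ (A1 : ℤ) [ZMOD p] := by
    rw [hA1def]
    split_ifs with h
    · rw [h.2.2] at mA2
      refine mA2.trans ?_
      push_cast
      rw [Int.modEq_iff_dvd]
      exact ⟨1, by ring⟩
    · exact mA2
  have hA11 : 1 ≤ A1 := by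
    rw [hA1def]
    split_ifs <;> omega
  have hAle : A1 ≤ A := by
    rw [hA1def]
    split_ifs with h
    · obtain ⟨k1, k2, k3⟩ := h
      have k4 : a2 = 1 ∧ b = 1 := by
        rw [k1, Nat.zero_mul, Nat.zero_add] at g2
        exact ⟨Nat.eq_one_of_mul_eq_one_right g2, Nat.eq_one_of_mul_eq_one_left g2⟩
      have k5 : w0 = A := by
        have : (w0 : ℤ) = A := by
          rw [hweq, k1, k4.1]
          push_cast
          ring
        exact_mod_cast this
      have k6 : A ≠ 1 := by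
        intro h3
        apply hne
        rw [k5, h3, k2]
        ring
      have k7 : (A - 1) % p = 0 := k3
      have k8 := Nat.dvd_of_mod_eq_zero k7
      have k9 := Nat.le_of_dvd (by omega) k8
      omega
    · exact mA1
  -- the small instance
  have cq : (q : ℤ) ≡ ((b2 * A1 + b * (B0 + 1) : ℕ) : ℤ) [ZMOD p] := by
    rw [hqeq]
    push_cast
    push_cast at mB2
    exact (hAc.mul_left _).add (mB2.mul_left _)
  have cw : (w0 : ℤ) ≡ ((a2 * A1 + a * (B0 + 1) : ℕ) : ℤ) [ZMOD p] := by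
    rw [hweq]
    push_cast
    push_cast at mB2
    exact (hAc.mul_left _).add (mB2.mul_left _)
  set q' := b2 * A1 + b * (B0 + 1) with hq'
  set w' := a2 * A1 + a * (B0 + 1) with hw'
  have cq' : q % p = q' % p := by
    have h3 : (q : ℤ) % p = (q' : ℤ) % p := cq
    exact_mod_cast h3
  have cop : ∀ {x y : ℕ}, x % p = y % p → Nat.Coprime x p → Nat.Coprime y p := by
    intro x y hxy hx
    have h3 : Nat.gcd x p = Nat.gcd y p := Nat.ModEq.gcd_eq hxy
    unfold Nat.Coprime at *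
    rw [← h3]
    exact hx
  obtain ⟨lam, hl1, hl2⟩ := pat_sound (p := p) (by omega) g4 g5 g10 g9 hc hpat hA1def hq' hw'
    (cop cq' hcop) (by rw [← cq']; exact h1) (by rw [← cq']; exact h2)
    (cop (by
      have h3 : ((w0 : ℤ) + c * q) ≡ ((w' : ℤ) + c * q') [ZMOD p] := cw.add (cq.mul_left _)
      have h4 : ((w0 : ℤ) + c * q) % p = ((w' : ℤ) + c * q') % p := h3
      exact_mod_cast h4) hcp)
  refine ⟨lam, (cq.mul_right _).trans hl1, ?_⟩
  have hlift := lift (p := p) (a := a) (b := b) (a2 := a2) (b2 := b2) (A := A) (B := B) (A' := A1)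
    (B' := (B0 + 1 : ℕ)) (c := c) (lam := lam) (by omega) f2 f4 f5 f1 (by exact_mod_cast hA11)
    (by exact_mod_cast hAle) (by push_cast; linarith [Int.natCast_nonneg B0]) (by exact_mod_cast mB1) hAc mB2
    (by rw [hq'] at hl1; push_cast at hl1 ⊢; exact hl1)
    (by rw [hq', hw'] at hl2; push_cast at hl2 ⊢; exact hl2)
  rw [← hqeq, ← hweq] at hlift
  exact hlift.big

end Pool.Agent.H89.FP
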