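import Pool.Agent.H89.FP.Lift

/-!
MP_fd220b_nt: a checker for certificates of values `≥ 2` of the sums `SS`, suitable for evaluation in the kernel.
-/

set_option autoImplicit false

namespace Pool.Agent.H89.FP

open Finset

/-- evaluate `n` first -/
def force {α : Type} (n : ℕ) (f : ℕ → α) : α :=
  Nat.rec (motive := fun _ => α) (f 0) (fun k _ => f (Nat.succ k)) n

theorem force_eq {α : Type} (n : ℕ) (f : ℕ → α) : force n f = f n := by
  cases n <;> rfl

/-- `At + 1` -/
def aN (p q lam T t : ℕ) : ℕ :=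
  cond (Nat.ble t T)
    (Nat.sub (cond (Nat.ble (Nat.mul q (Nat.mod (Nat.mul lam t) p)) t) 2 1)
      (cond (Nat.ble t (Nat.mul q (Nat.mod (Nat.add (Nat.mul lam t) (Nat.sub p lam)) p))) 0 1))
    1

/-- `SS + 2 p`, summed over `e < n` -/
def sN (p q lam N wn wnq T j : ℕ) (n : ℕ) : ℕ :=
  Nat.rec (motive := fun _ => ℕ) 0
    (fun e ih => Nat.add ih
      (force (Nat.mod (Nat.add j (Nat.mul wn e)) N) fun t =>
        force (Nat.mod (Nat.add t wnq) N) fun t' => Nat.add (aN p q lam T t) (Nat.sub 2 (aN p q lam T t')))) n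

/-- the certificate `j, f` is good -/
def vioN (p q lam w j f : ℕ) : Bool :=
  force (Nat.mul p q) fun N => force (Nat.sub N w) fun wn => force (Nat.mod (Nat.mul wn q) N) fun wnq =>
    force (cond (Nat.ble p f) (Nat.mod (Nat.add (Nat.mod (Nat.add j (Nat.mul wn (Nat.sub f p))) N) wnq) N)
      (Nat.mod (Nat.add j (Nat.mul wn f)) N)) fun T =>
      force (sN p q lam N wn wnq T j p) fun s =>
        or (Nat.ble (Nat.add (Nat.mul 2 p) 2) s) (Nat.ble (Nat.add s 2) (Nat.mul 2 p))

theorem ble_cond {α : Type} (a b : ℕ) (x y : α) : cond (Nat.ble a b) x y = if a ≤ b then x else y := by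
  by_cases h : a ≤ b
  · rw [if_pos h, Nat.ble_eq_true_of_le h]
    rfl
  · rw [if_neg h]
    have : Nat.ble a b = false := by
      rw [Bool.eq_false_iff]
      intro h2
      exact h (Nat.le_of_ble_eq_true h2)
    rw [this]
    rfl

theorem aN_eq {p q lam T t : ℕ} (hl : lam ≤ p) :
    (aN p q lam T t : ℤ) = At p q lam T t + 1 := by
  unfold aN At Gz Gm
  rw [ble_cond, ble_cond, ble_cond]
  change ((if t ≤ T then (if q * (lam * t % p) ≤ t then 2 else 1) -
    (if t ≤ q * ((lam * t + (p - lam)) % p) then 0 else 1) else 1 : ℕ) : ℤ) = _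
  have e1 : ((lam : ℤ) * t - lam) % p = (((lam * t + (p - lam)) % p : ℕ) : ℤ) := by
    push_cast
    rw [Nat.cast_sub hl]
    have : (lam : ℤ) * t + (p - lam) = (lam * t - lam) + p := by ring
    rw [this, Int.add_emod_right]
  have e2 : ((lam : ℤ) * t) % p = ((lam * t % p : ℕ) : ℤ) := by
    push_cast
    rfl
  rw [e1, e2]
  have c1 : ((t : ℤ) ≤ T) = (t ≤ T) := by
    apply propext
    exact Nat.cast_le
  have c2 : ((q : ℤ) * ((lam * t % p : ℕ) : ℤ) ≤ t) = (q * (lam * t % p) ≤ t) := by
    apply propext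
    rw [← Nat.cast_mul]
    exact Nat.cast_le
  have c3 : ((q : ℤ) * (((lam * t + (p - lam)) % p : ℕ) : ℤ) < t) =
      ¬ (t ≤ q * ((lam * t + (p - lam)) % p)) := by
    apply propext
    rw [← Nat.cast_mul, not_le]
    exact Nat.cast_lt
  simp only [c1, c2, c3]
  by_cases h1 : t ≤ T
  · rw [if_pos h1, if_pos h1]
    by_cases h2 : q * (lam * t % p) ≤ t
    · rw [if_pos h2, if_pos h2]
      by_cases h3 : t ≤ q * ((lam * t + (p - lam)) % p)
      · rw [if_pos h3, if_neg (not_not.2 h3)]
        norm_num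
      · rw [if_neg h3, if_pos h3]
        norm_num
    · rw [if_neg h2, if_neg h2]
      by_cases h3 : t ≤ q * ((lam * t + (p - lam)) % p)
      · rw [if_pos h3, if_neg (not_not.2 h3)]
        norm_num
      · rw [if_neg h3, if_pos h3]
        norm_num
  · rw [if_neg h1, if_neg h1]
    norm_num

theorem aN_le (p q lam T t : ℕ) : aN p q lam T t ≤ 2 := by
  unfold aN
  rw [ble_cond, ble_cond, ble_cond]
  split_ifs <;> first | decide | (exact Nat.sub_le _ _)

theorem tN_eq {p q w j e : ℕ} (hw : w ≤ p * q) :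
    (((j + (p * q - w) * e) % (p * q) : ℕ) : ℤ) = tt p q w j e := by
  unfold tt
  push_cast
  rw [Nat.cast_sub hw]
  push_cast
  have : (j : ℤ) + (p * q - w) * e = (j - w * e) + (p * q) * e := by ring
  rw [this, Int.add_mul_emod_self_left]

theorem tN_eq2 {p q w j e : ℕ} (hw : w ≤ p * q) :
    ((((j + (p * q - w) * e) % (p * q) + (p * q - w) * q % (p * q)) % (p * q) : ℕ) : ℤ) =
      tt p q w ((j : ℤ) - w * q) e := by
  rw [← Nat.add_mod]
  unfold tt
  push_cast
  rw [Nat.cast_sub hw]
  push_cast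
  have : (j : ℤ) + (p * q - w) * e + (p * q - w) * q = (j - w * q - w * e) + (p * q) * (e + q) := by ring
  rw [this, Int.add_mul_emod_self_left]

theorem sN_eq {p q lam w T j : ℕ} (hl : lam ≤ p) (hw : w ≤ p * q) (n : ℕ) :
    (sN p q lam (p * q) (p * q - w) ((p * q - w) * q % (p * q)) T j n : ℤ) =
      (∑ e ∈ range n, (At p q lam T (tt p q w j e) - At p q lam T (tt p q w ((j : ℤ) - w * q) e))) + 2 * n := by
  induction n with
  | zero =>
    unfold sN
    simp
  | succ n ih =>
    have e1 : sN p q lam (p * q) (p * q - w) ((p * q - w) * q % (p * q)) T j (n + 1) =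
        sN p q lam (p * q) (p * q - w) ((p * q - w) * q % (p * q)) T j n +
        (aN p q lam T ((j + (p * q - w) * n) % (p * q)) +
          (2 - aN p q lam T (((j + (p * q - w) * n) % (p * q) + (p * q - w) * q % (p * q)) % (p * q)))) := by
      change Nat.add (sN p q lam (p * q) (p * q - w) ((p * q - w) * q % (p * q)) T j n) (force _ _) = _
      rw [force_eq, force_eq]
      rfl
    rw [e1, Finset.sum_range_succ]
    push_cast
    rw [Nat.cast_sub (aN_le _ _ _ _ _), ih, aN_eq hl, aN_eq hl]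
    have h1 := tN_eq (p := p) (q := q) (w := w) (j := j) (e := n) hw
    have h2 := tN_eq2 (p := p) (q := q) (w := w) (j := j) (e := n) hw
    rw [h1, h2]
    push_cast
    ring

theorem vioN_sound {p q lam w j f : ℕ} (hp : 0 < p) (hq : 0 < q) (hl : lam ≤ p) (hw : w ≤ p * q)
    (hf : f < 2 * p) (h : vioN p q lam w j f = true) : Vio p q lam w := by
  have hN : 0 < p * q := Nat.mul_pos hp hq
  unfold vioN at h
  simp only [force_eq] at h
  rw [ble_cond] at h
  change (Nat.ble (2 * p + 2) (sN p q lam (p * q) (p * q - w) ((p * q - w) * q % (p * q))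
    (if p ≤ f then ((j + (p * q - w) * (f - p)) % (p * q) + (p * q - w) * q % (p * q)) % (p * q)
      else (j + (p * q - w) * f) % (p * q)) j p) || Nat.ble (sN p q lam (p * q) (p * q - w)
        ((p * q - w) * q % (p * q)) (if p ≤ f then ((j + (p * q - w) * (f - p)) % (p * q) +
          (p * q - w) * q % (p * q)) % (p * q) else (j + (p * q - w) * f) % (p * q)) j p + 2) (2 * p)) = true at h
  set T := (if p ≤ f then ((j + (p * q - w) * (f - p)) % (p * q) + (p * q - w) * q % (p * q)) % (p * q)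
      else (j + (p * q - w) * f) % (p * q)) with hT
  have hs := sN_eq (p := p) (q := q) (lam := lam) (w := w) (T := T) (j := j) hl hw p
  have hT1 : T < p * q := by
    rw [hT]
    split_ifs <;> exact Nat.mod_lt _ hN
  have hTc : ∃ f0 : ℕ, f0 < p ∧ (T : ℤ) % q = tt p q w j f0 % q := by
    by_cases hpf : p ≤ f
    · refine ⟨f - p, by omega, ?_⟩
      rw [hT, if_pos hpf, tN_eq2 hw]
      unfold tt
      have hd : (q : ℤ) ∣ (p : ℤ) * q := Dvd.intro_left _ rfl
      rw [Int.emod_emod_of_dvd _ hd, Int.emod_emod_of_dvd _ hd]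
      have : (j : ℤ) - w * q - w * ((f - p : ℕ) : ℤ) = (j - w * ((f - p : ℕ) : ℤ)) + q * (-w) := by ring
      rw [this, Int.add_mul_emod_self_left]
    · refine ⟨f, by omega, ?_⟩
      rw [hT, if_neg hpf, tN_eq hw]
  obtain ⟨f0, hf0, hf1⟩ := hTc
  refine ⟨j, T, f0, hf0, by positivity, by exact_mod_cast hT1, hf1, ?_⟩
  have hS : SS p q lam w T j = (sN p q lam (p * q) (p * q - w) ((p * q - w) * q % (p * q)) T j p : ℤ) - 2 * p := by
    rw [hs]
    unfold SS
    ring
  rw [hS, le_abs]
  rcases Bool.or_eq_true _ _ ▸ h with h1 | h1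
  · left
    have h2 := Nat.le_of_ble_eq_true h1
    have h3 : ((2 * p + 2 : ℕ) : ℤ) ≤ (sN p q lam (p * q) (p * q - w) ((p * q - w) * q % (p * q)) T j p : ℤ) := by
      exact_mod_cast h2
    push_cast at h3
    linarith
  · right
    have h2 := Nat.le_of_ble_eq_true h1
    have h3 : ((sN p q lam (p * q) (p * q - w) ((p * q - w) * q % (p * q)) T j p + 2 : ℕ) : ℤ) ≤ ((2 * p : ℕ) : ℤ) := by
      exact_mod_cast h2
    push_cast at h3
    linarith

end Pool.Agent.H89.FP
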