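import Pool.Agent.H84.FL.Main
import Pool.Agent.H89.FP.Farey

/-!
MP_fd220b_nt: the coefficients of the ternary inclusion-exclusion polynomial are values of `SS`.
-/

set_option autoImplicit false

namespace Pool.Agent.H89.FP

open Finset Pool.Agent.H84.FL

theorem Gz_le (p q lam t : ℤ) : 0 ≤ Gz p q lam t ∧ Gz p q lam t ≤ 1 := by
  unfold Gz
  split_ifs <;> norm_num

theorem Gm_le (p q lam t : ℤ) : 0 ≤ Gm p q lam t ∧ Gm p q lam t ≤ 1 := by
  unfold Gm
  split_ifs <;> norm_num

theorem Gm_succ (p q lam t : ℤ) : Gm p q lam (t + 1) = Gz p q lam t := by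
  unfold Gm Gz
  have e : lam * (t + 1) - lam = lam * t := by ring
  rw [e]
  congr 1
  apply propext
  constructor <;> intro h <;> linarith

/-- the number of representations `t = p x + q y` with `x < q`, `y < p` -/
theorem count {p q : ℕ} {lam t : ℤ} (hp : 0 < p) (hq : 0 < q) (hl : (q : ℤ) * lam ≡ 1 [ZMOD p])
    (h1 : t < p * q) :
    (∑ y ∈ range p, ∑ x ∈ range q, if (p : ℤ) * x + q * y = t then (1 : ℤ) else 0) = Gz p q lam t := by
  have hp' : (0 : ℤ) < p := by exact_mod_cast hp
  have hq' : (0 : ℤ) < q := by exact_mod_cast hq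
  obtain ⟨y0, hy0⟩ := Int.eq_ofNat_of_zero_le (Int.emod_nonneg (lam * t) hp'.ne')
  have hy1 : (y0 : ℤ) < p := by
    rw [← hy0]
    exact Int.emod_lt_of_pos _ hp'
  have hy0' : (lam * t) % (p : ℤ) = y0 := hy0
  have hyc : (q : ℤ) * y0 ≡ t [ZMOD p] := by
    have h2 : (y0 : ℤ) ≡ lam * t [ZMOD p] := by
      rw [← hy0']
      exact Int.mod_modEq _ _
    have h3 := h2.mul_left (q : ℤ)
    have h4 := hl.mul_right t
    rw [one_mul, mul_assoc] at h4
    exact h3.trans h4
  have uniq : ∀ x y : ℕ, y < p → (p : ℤ) * x + q * y = t → y = y0 := by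
    intro x y hy h
    have h2 : (q : ℤ) * y ≡ t [ZMOD p] := by
      rw [← h, Int.modEq_iff_dvd]
      exact ⟨x, by ring⟩
    have h3 := h2.mul_left lam
    have h4 : lam * ((q : ℤ) * y) ≡ y [ZMOD p] := by
      have := hl.mul_right (y : ℤ)
      rw [one_mul] at this
      have e : lam * ((q : ℤ) * y) = q * lam * y := by ring
      rw [e]
      exact this
    have h5 : (y : ℤ) ≡ lam * t [ZMOD p] := h4.symm.trans h3
    have h6 : (y : ℤ) % p = y0 := by
      rw [← hy0']
      exact h5
    rw [Int.emod_eq_of_lt (by positivity) (by exact_mod_cast hy)] at h6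
    exact_mod_cast h6
  rw [Finset.sum_eq_single y0]
  · unfold Gz
    rw [hy0']
    by_cases h : (q : ℤ) * y0 ≤ t
    · rw [if_pos h]
      obtain ⟨x0, hx0⟩ := hyc.dvd
      have hx1 : 0 ≤ x0 := by
        by_contra h2
        push Not at h2
        nlinarith
      obtain ⟨x1, rfl⟩ := Int.eq_ofNat_of_zero_le hx1
      have hx2 : x1 < q := by
        have : (x1 : ℤ) < q := by
          have h2 : (0 : ℤ) ≤ q * y0 := by positivity
          nlinarith
        exact_mod_cast this
      rw [Finset.sum_eq_single x1]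
      · rw [if_pos (by linarith)]
      · intro x _ hx
        rw [if_neg]
        intro h2
        apply hx
        have h3 : (p : ℤ) * x = p * x1 := by linarith
        have h4 := mul_left_cancel₀ hp'.ne' h3
        exact_mod_cast h4
      · intro h2
        exact absurd (mem_range.2 hx2) h2
    · rw [if_neg h]
      refine Finset.sum_eq_zero fun x _ => ?_
      rw [if_neg]
      intro h2
      apply h
      have h3 : (0 : ℤ) ≤ p * x := by positivity
      linarith
  · intro y hy hyy
    rw [mem_range] at hy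
    refine Finset.sum_eq_zero fun x _ => ?_
    rw [if_neg]
    intro h2
    exact hyy (uniq x y hy h2)
  · intro h
    exact absurd (mem_range.2 (by exact_mod_cast hy1)) h

theorem CC_eq {p q r : ℕ} {lam w m : ℤ} (hp : 0 < p) (hq : 0 < q) (hr : 0 < r)
    (hl : (q : ℤ) * lam ≡ 1 [ZMOD p]) (hw : (r : ℤ) * w ≡ 1 [ZMOD p * q]) (hm : m < r * (p * q)) :
    CC p q r p m = ∑ e ∈ range p,
      if (r : ℤ) * tt p q w (w * m) e ≤ m then Gz p q lam (tt p q w (w * m) e) else 0 := by
  have hp' : (0 : ℤ) < p := by exact_mod_cast hp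
  have hq' : (0 : ℤ) < q := by exact_mod_cast hq
  have hr' : (0 : ℤ) < r := by exact_mod_cast hr
  have hN : (0 : ℤ) < (p : ℤ) * q := by positivity
  have hq1 : (p : ℤ) ≤ p * q := by nlinarith
  unfold CC
  have e1 : ∀ t : ℤ, (if (r : ℤ) * t ≤ m ∧ (m - r * t) % ((p : ℤ) * q) < p then (1 : ℤ) else 0) =
      ∑ e ∈ range p, if (r : ℤ) * t ≤ m ∧ (m - r * t) % ((p : ℤ) * q) = e then (1 : ℤ) else 0 := by
    intro t
    obtain ⟨s, hs⟩ := Int.eq_ofNat_of_zero_le (Int.emod_nonneg (m - r * t) hN.ne')
    rw [hs]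
    by_cases h : (r : ℤ) * t ≤ m
    · simp only [h, true_and]
      by_cases h2 : (s : ℤ) < p
      · rw [if_pos h2, Finset.sum_eq_single s]
        · rw [if_pos rfl]
        · intro x _ hx
          rw [if_neg]
          intro h3
          exact hx (by exact_mod_cast h3.symm)
        · intro h3
          exact absurd (mem_range.2 (by exact_mod_cast h2)) h3
      · rw [if_neg h2]
        symm
        refine Finset.sum_eq_zero fun x hx => ?_
        rw [mem_range] at hx
        rw [if_neg]
        intro h3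
        apply h2
        rw [h3]
        exact_mod_cast hx
    · simp [h]
  simp only [e1]
  have e2 : ∀ y ∈ range p, (∑ x ∈ range q, ∑ e ∈ range p,
      if (r : ℤ) * (p * x + q * y) ≤ m ∧ (m - r * (p * x + q * y)) % ((p : ℤ) * q) = e then (1 : ℤ) else 0) =
      ∑ e ∈ range p, ∑ x ∈ range q,
      if (r : ℤ) * (p * x + q * y) ≤ m ∧ (m - r * (p * x + q * y)) % ((p : ℤ) * q) = e then (1 : ℤ) else 0 :=
    fun y _ => Finset.sum_comm
  rw [Finset.sum_congr rfl e2, Finset.sum_comm]
  refine Finset.sum_congr rfl fun e he => ?_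
  rw [mem_range] at he
  have he' : (e : ℤ) < p := by exact_mod_cast he
  set t0 := tt p q w (w * m) e with ht0
  have ht00 : 0 ≤ t0 := Int.emod_nonneg _ hN.ne'
  have ht01 : t0 < p * q := Int.emod_lt_of_pos _ hN
  have ht0c : t0 ≡ w * m - w * e [ZMOD p * q] := Int.mod_modEq _ _
  have key : ∀ t : ℤ, 0 ≤ t → (((r : ℤ) * t ≤ m ∧ (m - r * t) % ((p : ℤ) * q) = e) ↔ (t = t0 ∧ (r : ℤ) * t0 ≤ m)) := by
    intro t ht
    constructor
    · rintro ⟨h1, h2⟩
      have h3 : t < p * q := by
        by_contra h4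
        push Not at h4
        nlinarith
      have h4 : m - r * t ≡ e [ZMOD p * q] := by
        have : (m - r * t) % ((p : ℤ) * q) ≡ m - r * t [ZMOD p * q] := Int.mod_modEq _ _
        rw [h2] at this
        exact this.symm
      have h5 : t ≡ w * m - w * e [ZMOD p * q] := by
        have h6 := h4.mul_left w
        have h7 := hw.mul_right t
        have e3 : w * (m - r * t) = w * m - r * w * t := by ring
        rw [e3] at h6
        rw [one_mul] at h7
        have h8 := ((Int.ModEq.refl (w * m)).sub h6)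
        have e4 : w * m - (w * m - r * w * t) = r * w * t := by ring
        rw [e4] at h8
        exact h7.symm.trans h8
      have h9 : t = t0 := by
        have h10 : t % ((p : ℤ) * q) = t0 % ((p : ℤ) * q) := h5.trans ht0c.symm
        rwa [Int.emod_eq_of_lt ht h3, Int.emod_eq_of_lt ht00 ht01] at h10
      exact ⟨h9, by rw [← h9]; exact h1⟩
    · rintro ⟨h1, h2⟩
      rw [h1]
      refine ⟨h2, ?_⟩
      have h3 : m - r * t0 ≡ e [ZMOD p * q] := by
        have h4 := ht0c.mul_left (r : ℤ)
        have h5 := hw.mul_right (m - e)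
        have e3 : (r : ℤ) * (w * m - w * e) = r * w * (m - e) := by ring
        rw [e3] at h4
        rw [one_mul] at h5
        have h6 := (Int.ModEq.refl m).sub (h4.trans h5)
        have e4 : m - (m - e) = (e : ℤ) := by ring
        rwa [e4] at h6
      have h4 : (m - r * t0) % ((p : ℤ) * q) = e % ((p : ℤ) * q) := h3
      rw [h4]
      exact Int.emod_eq_of_lt (by positivity) (by linarith)
  have e3 : ∀ y ∈ range p, (∑ x ∈ range q,
      if (r : ℤ) * (p * x + q * y) ≤ m ∧ (m - r * (p * x + q * y)) % ((p : ℤ) * q) = e then (1 : ℤ) else 0) =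
      ∑ x ∈ range q, (if (r : ℤ) * t0 ≤ m then (1 : ℤ) else 0) * (if (p : ℤ) * x + q * y = t0 then 1 else 0) := by
    intro y _
    refine Finset.sum_congr rfl fun x _ => ?_
    have := key (p * x + q * y) (by positivity)
    by_cases h1 : (p : ℤ) * x + q * y = t0
    · by_cases h2 : (r : ℤ) * t0 ≤ m
      · rw [if_pos (this.2 ⟨h1, h2⟩), if_pos h2, if_pos h1]
        rfl
      · rw [if_neg (fun h => h2 (this.1 h).2), if_neg h2, zero_mul]
    · rw [if_neg (fun h => h1 (this.1 h).1), if_neg h1, mul_zero]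
  rw [Finset.sum_congr rfl e3]
  simp only [← Finset.mul_sum]
  rw [count hp hq hl ht01]
  by_cases h : (r : ℤ) * t0 ≤ m
  · rw [if_pos h, if_pos h, one_mul]
  · rw [if_neg h, if_neg h, zero_mul]

end Pool.Agent.H89.FP
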