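import Pool.Agent.H89.FP.Coeff

/-!
MP_fd220b_nt: a value `≥ 2` of the sums `SS` gives a coefficient of absolute value at least two.
-/

set_option autoImplicit false

namespace Pool.Agent.H89.FP

open Finset Polynomial Pool.Agent.H84.FL

theorem tt_range {p q : ℕ} {w j e : ℤ} (hp : 0 < p) (hq : 0 < q) :
    0 ≤ tt p q w j e ∧ tt p q w j e < (p : ℤ) * q := by
  have hN : (0 : ℤ) < (p : ℤ) * q := by positivity
  exact ⟨Int.emod_nonneg _ hN.ne', Int.emod_lt_of_pos _ hN⟩

/-- the difference of two consecutive counts -/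
theorem CC_diff {p q r : ℕ} {lam w m : ℤ} (hp : 0 < p) (hq : 0 < q) (hr : 0 < r)
    (hl : (q : ℤ) * lam ≡ 1 [ZMOD p]) (hw : (r : ℤ) * w ≡ 1 [ZMOD p * q]) (hm : m < r * (p * q)) :
    CC p q r p m - CC p q r p (m - r) = ∑ e ∈ range p,
      if (r : ℤ) * tt p q w (w * m) e ≤ m then Gz p q lam (tt p q w (w * m) e) - Gm p q lam (tt p q w (w * m) e)
      else 0 := by
  have hr' : (0 : ℤ) < r := by exact_mod_cast hr
  have hq' : (0 : ℤ) < q := by exact_mod_cast hq
  have hp' : (0 : ℤ) < p := by exact_mod_cast hp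
  have hN : (0 : ℤ) < (p : ℤ) * q := by positivity
  rw [CC_eq hp hq hr hl hw hm, CC_eq hp hq hr hl hw (m := m - r) (by linarith), ← Finset.sum_sub_distrib]
  refine Finset.sum_congr rfl fun e _ => ?_
  set t := tt p q w (w * m) e with ht
  set s := tt p q w (w * (m - r)) e with hs
  obtain ⟨ht0, ht1⟩ : 0 ≤ t ∧ t < (p : ℤ) * q := tt_range hp hq
  obtain ⟨hs0, hs1⟩ : 0 ≤ s ∧ s < (p : ℤ) * q := tt_range hp hq
  have hst : s ≡ t - 1 [ZMOD p * q] := by
    have h1 : s ≡ w * (m - r) - w * e [ZMOD p * q] := Int.mod_modEq _ _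
    have h2 : t ≡ w * m - w * e [ZMOD p * q] := Int.mod_modEq _ _
    have e1 : w * (m - r) - w * e = w * m - w * e - r * w := by ring
    rw [e1] at h1
    exact h1.trans ((h2.symm).sub hw)
  rcases lt_or_eq_of_le ht0 with h | h
  · have hs2 : s = t - 1 := by
      have h3 : s % ((p : ℤ) * q) = (t - 1) % ((p : ℤ) * q) := hst
      rwa [Int.emod_eq_of_lt hs0 hs1, Int.emod_eq_of_lt (by linarith) (by linarith)] at h3
    have e2 : ((r : ℤ) * s ≤ m - r) = ((r : ℤ) * t ≤ m) := by
      apply propext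
      rw [hs2]
      constructor <;> intro h <;> linarith
    have e3 : Gz p q lam s = Gm p q lam t := by
      rw [hs2, ← Gm_succ]
      congr 1
      ring
    simp only [e2, e3]
    split_ifs <;> ring
  · have hs2 : s = p * q - 1 := by
      have h3 : s % ((p : ℤ) * q) = (t - 1) % ((p : ℤ) * q) := hst
      rw [Int.emod_eq_of_lt hs0 hs1, ← h] at h3
      have h4 : (0 - 1 : ℤ) % ((p : ℤ) * q) = (p * q - 1) % ((p : ℤ) * q) := by
        have e5 : (0 - 1 : ℤ) = (p * q - 1) + (p * q) * (-1) := by ring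
        rw [e5, Int.add_mul_emod_self_left]
      rw [h4, Int.emod_eq_of_lt (by linarith) (by linarith)] at h3
      exact h3
    have e2 : ¬ ((r : ℤ) * s ≤ m - r) := by
      rw [hs2]
      intro h5
      nlinarith
    have e3 : Gm p q lam t = 0 := by
      unfold Gm
      rw [if_neg]
      rw [← h]
      have h5 : 0 ≤ (lam * 0 - lam) % (p : ℤ) := Int.emod_nonneg _ hp'.ne'
      nlinarith
    rw [if_neg e2, e3]
    simp

theorem coeff_eq {p q r : ℕ} {lam w : ℤ} (hp : 2 ≤ p) (hq : 2 ≤ q) (hr : 0 < r)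
    (hl : (q : ℤ) * lam ≡ 1 [ZMOD p]) (hw : (r : ℤ) * w ≡ 1 [ZMOD p * q]) {F : ℤ[X]} (hF : IsIE p q r F)
    {n : ℕ} (hn : n < p * q * r) :
    F.coeff n = SS p q lam w ((n / r : ℕ) : ℤ) (w * n) := by
  have hr' : (0 : ℤ) < r := by exact_mod_cast hr
  have hq' : (2 : ℤ) ≤ q := by exact_mod_cast hq
  have hp' : (2 : ℤ) ≤ p := by exact_mod_cast hp
  have hN : (0 : ℤ) < (p : ℤ) * q := by positivity
  have hn' : (n : ℤ) < r * (p * q) := by
    have : (n : ℤ) < ((p * q * r : ℕ) : ℤ) := by exact_mod_cast hn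
    push_cast at this
    linarith
  rw [coeff_F (by omega) (by omega) hr hF hn]
  have c1 : ∀ m : ℤ, m < r * (p * q) → Cz p q r m = CC p q r p m := by
    intro m hm
    exact Cz_eq (by omega) (by omega) hr le_rfl (by linarith)
  rw [c1 n hn', c1 (n - q) (by linarith), c1 (n - r) (by linarith), c1 (n - q - r) (by linarith)]
  have d1 := CC_diff (p := p) (q := q) (r := r) (lam := lam) (w := w) (m := n) (by omega) (by omega) hr hl hw hn'
  have d2 := CC_diff (p := p) (q := q) (r := r) (lam := lam) (w := w) (m := n - q) (by omega) (by omega) hr hl hw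
    (by linarith)
  have e0 : CC p q r p n - CC p q r p (n - q) - CC p q r p (n - r) + CC p q r p (n - q - r) =
      (CC p q r p n - CC p q r p (n - r)) - (CC p q r p (n - q) - CC p q r p (n - q - r)) := by ring
  rw [e0, d1, d2, ← Finset.sum_sub_distrib]
  unfold SS
  refine Finset.sum_congr rfl fun e he => ?_
  rw [mem_range] at he
  have he' : (e : ℤ) < p := by exact_mod_cast he
  have e1 : tt p q w (w * (n - q)) e = tt p q w (w * n - w * q) e := by
    unfold tt
    congr 1
    ring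
  rw [e1]
  have hdiv : ∀ t : ℤ, (t ≤ ((n / r : ℕ) : ℤ)) ↔ (r : ℤ) * t ≤ n := by
    intro t
    push_cast
    rw [Int.le_ediv_iff_mul_le hr', mul_comm]
  unfold At
  simp only [hdiv]
  congr 1
  set t := tt p q w (w * n - w * q) e with ht
  obtain ⟨ht0, ht1⟩ : 0 ≤ t ∧ t < (p : ℤ) * q := tt_range (by omega) (by omega)
  have e2 : ((r : ℤ) * t ≤ n - q) = ((r : ℤ) * t ≤ n) := by
    apply propext
    constructor
    · intro h
      linarith
    · intro h
      by_contra h2
      push Not at h2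
      have h3 : t ≡ w * n - w * q - w * e [ZMOD p * q] := Int.mod_modEq _ _
      have h4 := h3.mul_left (r : ℤ)
      have h5 := hw.mul_right ((n : ℤ) - q - e)
      have e3 : (r : ℤ) * (w * n - w * q - w * e) = r * w * (n - q - e) := by ring
      rw [e3] at h4
      rw [one_mul] at h5
      have h6 := (Int.ModEq.refl (n : ℤ)).sub (h4.trans h5)
      have e4 : (n : ℤ) - (n - q - e) = q + e := by ring
      rw [e4] at h6
      have h7 : ((n : ℤ) - r * t) % ((p : ℤ) * q) = (q + e) % ((p : ℤ) * q) := h6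
      have h8 : (q : ℤ) ≤ p * q := by nlinarith
      have h9 : (q : ℤ) + e < p * q := by nlinarith
      rw [Int.emod_eq_of_lt (by linarith) (by linarith), Int.emod_eq_of_lt (by positivity) h9] at h7
      have h10 : (0 : ℤ) ≤ e := by positivity
      linarith
  simp only [e2]

end Pool.Agent.H89.FP
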