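import Pool.Agent.H89.FP.Coeff2

/-!
MP_fd220b_nt: a value `≥ 2` of the sums `SS` gives a coefficient of absolute value at least two, for every
`r > q` (no condition `r > p q`).
-/

set_option autoImplicit false

namespace Pool.Agent.H89.FP

open Finset Polynomial Pool.Agent.H84.FL

theorem At_sub (p q lam T t : ℤ) :
    At p q lam T t - At p q lam (T - 1) t = if t = T then Gz p q lam T - Gm p q lam T else 0 := by
  unfold At
  by_cases h : t = T
  · rw [if_pos h, if_pos h.le, if_neg (by omega), h]
    ring
  · rw [if_neg h]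
    by_cases h2 : t ≤ T
    · rw [if_pos h2, if_pos (by omega)]
      ring
    · rw [if_neg h2, if_neg (by omega)]
      ring

theorem sum_ite_cast {p : ℕ} {m z : ℤ} (hm : 0 ≤ m) :
    (∑ e ∈ range p, if (e : ℤ) = m then z else 0) = if m < p then z else 0 := by
  obtain ⟨k, rfl⟩ := Int.eq_ofNat_of_zero_le hm
  by_cases h : ((k : ℤ)) < p
  · rw [if_pos h, Finset.sum_eq_single k]
    · rw [if_pos rfl]
    · intro x _ hx
      rw [if_neg]
      intro h3
      exact hx (by exact_mod_cast h3)
    · intro h3
      exact absurd (mem_range.2 (by exact_mod_cast h)) h3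
  · rw [if_neg h]
    refine Finset.sum_eq_zero fun x hx => ?_
    rw [mem_range] at hx
    rw [if_neg]
    intro h3
    apply h
    rw [← h3]
    exact_mod_cast hx

theorem SS_step {p q r : ℕ} {lam w j T : ℤ} (hp : 2 ≤ p) (hpq : p < q)
    (hw : (r : ℤ) * w ≡ 1 [ZMOD p * q]) (hT0 : 0 ≤ T) (hT1 : T < p * q) :
    SS p q lam w T j - SS p q lam w (T - 1) j =
      (if (r * j - r * T) % ((p : ℤ) * q) < p then Gz p q lam T - Gm p q lam T else 0) -
      (if q ≤ (r * j - r * T) % ((p : ℤ) * q) ∧ (r * j - r * T) % ((p : ℤ) * q) < q + p then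
        Gz p q lam T - Gm p q lam T else 0) := by
  have hp' : (2 : ℤ) ≤ p := by exact_mod_cast hp
  have hpq' : (p : ℤ) < q := by exact_mod_cast hpq
  have hN : (0 : ℤ) < (p : ℤ) * q := by nlinarith
  have hq1 : (p : ℤ) + q ≤ p * q := by nlinarith
  set z := Gz p q lam T - Gm p q lam T with hz
  set m := (r * j - r * T) % ((p : ℤ) * q) with hm
  have hm0 : 0 ≤ m := Int.emod_nonneg _ hN.ne'
  have hm1 : m < p * q := Int.emod_lt_of_pos _ hN
  have hmc : m ≡ r * j - r * T [ZMOD p * q] := Int.mod_modEq _ _
  -- which time is `T`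
  have key : ∀ x : ℤ, 0 ≤ x → x < p * q → ((j - w * x) % ((p : ℤ) * q) = T ↔ x = m) := by
    intro x hx0 hx1
    constructor
    · intro h
      have h1 : T ≡ j - w * x [ZMOD p * q] := by
        rw [← h]
        exact Int.mod_modEq _ _
      have h2 := h1.mul_left (r : ℤ)
      have h3 := hw.mul_right x
      rw [one_mul] at h3
      have h4 : x ≡ m [ZMOD p * q] := by
        have h5 : (r : ℤ) * j - r * T ≡ r * w * x [ZMOD p * q] := by
          have h6 := (Int.ModEq.refl ((r : ℤ) * j)).sub h2
          have e1 : (r : ℤ) * j - r * (j - w * x) = r * w * x := by ring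
          rwa [e1] at h6
        exact (hmc.trans (h5.trans h3)).symm
      have h5 : x % ((p : ℤ) * q) = m % ((p : ℤ) * q) := h4
      rwa [Int.emod_eq_of_lt hx0 hx1, Int.emod_eq_of_lt hm0 hm1] at h5
    · intro h
      rw [h]
      have h1 : j - w * m ≡ T [ZMOD p * q] := by
        have h2 := hmc.mul_left w
        have h3 := hw.mul_right (j - T)
        rw [one_mul] at h3
        have e1 : w * ((r : ℤ) * j - r * T) = r * w * (j - T) := by ring
        rw [e1] at h2
        have h4 := (Int.ModEq.refl j).sub (h2.trans h3)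
        have e2 : j - (j - T) = T := by ring
        rwa [e2] at h4
      have h5 : (j - w * m) % ((p : ℤ) * q) = T % ((p : ℤ) * q) := h1
      rw [h5]
      exact Int.emod_eq_of_lt hT0 hT1
  unfold SS
  rw [← Finset.sum_sub_distrib]
  have e1 : ∀ e ∈ range p, (At p q lam T (tt p q w j e) - At p q lam T (tt p q w (j - w * q) e)) -
      (At p q lam (T - 1) (tt p q w j e) - At p q lam (T - 1) (tt p q w (j - w * q) e)) =
      (if (e : ℤ) = m then z else 0) - (if (e : ℤ) = m - q then z else 0) := by
    intro e he
    rw [mem_range] at he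
    have he' : (e : ℤ) < p := by exact_mod_cast he
    have he0 : (0 : ℤ) ≤ e := by positivity
    have e2 : (At p q lam T (tt p q w j e) - At p q lam T (tt p q w (j - w * q) e)) -
      (At p q lam (T - 1) (tt p q w j e) - At p q lam (T - 1) (tt p q w (j - w * q) e)) =
      (At p q lam T (tt p q w j e) - At p q lam (T - 1) (tt p q w j e)) -
      (At p q lam T (tt p q w (j - w * q) e) - At p q lam (T - 1) (tt p q w (j - w * q) e)) := by ring
    rw [e2, At_sub, At_sub, ← hz]
    have k1 := key e he0 (by linarith)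
    have k2 := key (q + e) (by linarith) (by linarith)
    have a1 : (tt p q w j e = T) = ((e : ℤ) = m) := propext k1
    have a2 : (tt p q w (j - w * q) e = T) = ((e : ℤ) = m - q) := by
      apply propext
      have e3 : j - w * (q + e) = j - w * q - w * e := by ring
      rw [e3] at k2
      unfold tt
      rw [k2]
      constructor <;> intro h <;> linarith
    simp only [a1, a2]
  rw [Finset.sum_congr rfl e1, Finset.sum_sub_distrib, sum_ite_cast hm0]
  congr 1
  by_cases h : (q : ℤ) ≤ m
  · rw [sum_ite_cast (by linarith)]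
    have e3 : (m - q < p) = ((q : ℤ) ≤ m ∧ m < q + p) := by
      apply propext
      constructor
      · intro h2
        exact ⟨h, by linarith⟩
      · intro h2
        linarith [h2.2]
    simp only [e3]
  · rw [if_neg (fun h2 => h h2.1)]
    refine Finset.sum_eq_zero fun e _ => ?_
    rw [if_neg]
    intro h2
    have he0 : (0 : ℤ) ≤ e := by positivity
    linarith

theorem SS_neg_one {p : ℕ} {q lam w j : ℤ} (hp : 0 < p) (hq : 0 < q) : SS p q lam w (-1) j = 0 := by
  have hp' : (0 : ℤ) < p := by exact_mod_cast hp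
  have hN : (0 : ℤ) < (p : ℤ) * q := by positivity
  unfold SS
  refine Finset.sum_eq_zero fun e _ => ?_
  have h1 : 0 ≤ tt p q w j e := Int.emod_nonneg _ hN.ne'
  have h2 : 0 ≤ tt p q w (j - w * q) e := Int.emod_nonneg _ hN.ne'
  unfold At
  rw [if_neg (by linarith), if_neg (by linarith)]
  ring

theorem exists_coeff {p q r : ℕ} {lam w : ℤ} (hp : 2 ≤ p) (hpq : p < q) (hqr : q < r)
    (hl : (q : ℤ) * lam ≡ 1 [ZMOD p]) (hw : (r : ℤ) * w ≡ 1 [ZMOD p * q]) {F : ℤ[X]} (hF : IsIE p q r F)
    (hb : Big p q lam w) : ∃ n : ℕ, 2 ≤ |F.coeff n| := by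
  have hp' : (2 : ℤ) ≤ p := by exact_mod_cast hp
  have hpq' : (p : ℤ) < q := by exact_mod_cast hpq
  have hqr' : (q : ℤ) < r := by exact_mod_cast hqr
  have hN : (0 : ℤ) < (p : ℤ) * q := by nlinarith
  have hq1 : (p : ℤ) + q ≤ p * q := by nlinarith
  obtain ⟨j, T0, hT00, hT01, hS0⟩ := hb
  have hex : ∃ T : ℕ, (T : ℤ) < p * q ∧ 2 ≤ |SS p q lam w T j| := by
    obtain ⟨T1, rfl⟩ := Int.eq_ofNat_of_zero_le hT00
    exact ⟨T1, hT01, hS0⟩
  classical
  set T := Nat.find hex with hT
  obtain ⟨hT1, hS⟩ := Nat.find_spec hex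
  rw [← hT] at hT1 hS
  have hprev : |SS p q lam w ((T : ℤ) - 1) j| ≤ 1 := by
    rcases Nat.eq_zero_or_pos T with h | h
    · rw [h]
      have : SS p q lam w (((0 : ℕ) : ℤ) - 1) j = 0 := by
        have e : (((0 : ℕ) : ℤ) - 1) = -1 := by norm_num
        rw [e]
        exact SS_neg_one (by omega) (by linarith)
      rw [this]
      norm_num
    · have h2 := Nat.find_min hex (m := T - 1) (by omega)
      have e : ((T - 1 : ℕ) : ℤ) = (T : ℤ) - 1 := by
        rw [Nat.cast_sub h]
        norm_num
      rw [e] at h2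
      by_contra h3
      push Not at h3
      exact h2 ⟨by linarith, by linarith⟩
  clear_value T
  have hstep := SS_step (r := r) (lam := lam) (j := j) (T := (T : ℤ)) hp hpq hw (by positivity) hT1
  have hmdef : (r * j - r * T) % ((p : ℤ) * q) ≡ r * j - r * T [ZMOD p * q] := Int.mod_modEq _ _
  obtain ⟨m, hm⟩ := Int.eq_ofNat_of_zero_le (Int.emod_nonneg (r * j - r * T) hN.ne')
  have hm1 : (m : ℤ) < p * q := by
    have h2 := Int.emod_lt_of_pos (r * j - r * T) hN
    rw [hm] at h2
    exact h2
  rw [hm] at hstep hmdef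
  have hnz := Gz_le p q lam T
  have hnm := Gm_le p q lam T
  have habs := abs_le.1 hprev
  -- the number `n`
  have hncong : w * ((r * T + m : ℕ) : ℤ) ≡ j [ZMOD p * q] := by
    push_cast
    have h1 : (r : ℤ) * T + m ≡ r * j [ZMOD p * q] := by
      have := hmdef.add_left ((r : ℤ) * T)
      have e : (r : ℤ) * T + (r * j - r * T) = r * j := by ring
      rwa [e] at this
    have h2 := h1.mul_left w
    have h3 := hw.mul_right j
    have e : w * ((r : ℤ) * j) = r * w * j := by ring
    rw [e] at h2
    rw [one_mul] at h3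
    exact h2.trans h3
  have hT1' : T < p * q := by exact_mod_cast hT1
  have hm1' : m < p * q := by exact_mod_cast hm1
  by_cases hmr : m < r
  · have hn : r * T + m < p * q * r := by
      have h1 : (T + 1) * r ≤ p * q * r := Nat.mul_le_mul_right r hT1'
      have e : (T + 1) * r = r * T + r := by ring
      omega
    refine ⟨r * T + m, ?_⟩
    rw [coeff_eq hp (by omega) (by omega) hl hw hF hn]
    have hdiv : (r * T + m) / r = T := by
      rw [Nat.mul_add_div (by omega), Nat.div_eq_of_lt hmr, Nat.add_zero]
    rw [hdiv, SS_congr (Int.ModEq.refl w) hncong]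
    exact hS
  · push Not at hmr
    have hmr' : (r : ℤ) ≤ m := by exact_mod_cast hmr
    rw [if_neg (by linarith)] at hstep
    have hcase : (q : ℤ) ≤ m ∧ (m : ℤ) < q + p := by
      by_contra h
      rw [if_neg h] at hstep
      have : SS p q lam w T j = SS p q lam w ((T : ℤ) - 1) j := by linarith
      rw [this] at hS
      linarith
    rw [if_pos hcase] at hstep
    -- `T + 1 < p q`
    have hTN : (T : ℤ) + 1 < p * q := by
      by_contra h
      push Not at h
      have hTe : (T : ℤ) = p * q - 1 := by linarith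
      have hlast : ∀ x : ℤ, 0 ≤ x % (p : ℤ) ∧ x % (p : ℤ) ≤ p - 1 := by
        intro x
        have h1 := Int.emod_nonneg x (by linarith : (p : ℤ) ≠ 0)
        have h2 := Int.emod_lt_of_pos x (by linarith : (0 : ℤ) < p)
        exact ⟨h1, by omega⟩
      have g1 : Gz p q lam T = 1 := by
        unfold Gz
        rw [if_pos]
        have := (hlast (lam * T)).2
        rw [hTe]
        rw [hTe] at this
        nlinarith
      have g2 : Gm p q lam T = 1 := by
        unfold Gm
        rw [if_pos]
        have := (hlast (lam * T - lam)).2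
        rw [hTe]
        rw [hTe] at this
        nlinarith
      rw [g1, g2] at hstep
      have : SS p q lam w T j = SS p q lam w ((T : ℤ) - 1) j := by linarith
      rw [this] at hS
      linarith
    have hstep2 := SS_step (r := r) (lam := lam) (j := j) (T := (T : ℤ) + 1) hp hpq hw (by positivity) hTN
    have hm2 : (r * j - r * ((T : ℤ) + 1)) % ((p : ℤ) * q) = m - r := by
      have h1 : r * j - r * ((T : ℤ) + 1) ≡ m - r [ZMOD p * q] := by
        have := (hmdef.symm).sub_right (r : ℤ)
        have e : r * j - r * (T : ℤ) - r = r * j - r * ((T : ℤ) + 1) := by ring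
        rwa [e] at this
      have h2 : (r * j - r * ((T : ℤ) + 1)) % ((p : ℤ) * q) = (m - r) % ((p : ℤ) * q) := h1
      rw [h2]
      exact Int.emod_eq_of_lt (by linarith) (by linarith)
    rw [hm2, if_pos (by linarith [hcase.2]), if_neg (by intro h; linarith [h.1, hcase.2])] at hstep2
    have e1 : (T : ℤ) + 1 - 1 = T := by ring
    rw [e1] at hstep2
    have hGs := Gm_succ p q lam T
    have hz2 := Gz_le p q lam ((T : ℤ) + 1)
    have hn : r * T + m < p * q * r := by
      have h1 : (T + 2) * r ≤ p * q * r := by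
        refine Nat.mul_le_mul_right r ?_
        have : (T : ℤ) + 2 ≤ p * q := by linarith
        exact_mod_cast this
      have e : (T + 2) * r = r * T + r + r := by ring
      have h3 : m < q + p := by exact_mod_cast hcase.2
      omega
    have hm3 : m < q + p := by exact_mod_cast hcase.2
    refine ⟨r * T + m, ?_⟩
    rw [coeff_eq hp (by omega) (by omega) hl hw hF hn]
    have hdiv : (r * T + m) / r = T + 1 := by
      have e : r * T + m = r * (T + 1) + (m - r) := by
        have : r * (T + 1) = r * T + r := by ring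
        omega
      rw [e, Nat.mul_add_div (by omega), Nat.div_eq_of_lt (by omega), Nat.add_zero]
    rw [hdiv, SS_congr (Int.ModEq.refl w) hncong]
    push_cast
    rw [hGs] at hstep2
    -- values
    have hG1 : Gz p q lam T = 0 ∨ Gz p q lam T = 1 := by
      unfold Gz
      split_ifs <;> simp
    have hG2 : Gm p q lam T = 0 ∨ Gm p q lam T = 1 := by
      unfold Gm
      split_ifs <;> simp
    rw [le_abs] at hS ⊢
    rcases hG1 with h1 | h1 <;> rcases hG2 with h2 | h2 <;> rw [h1, h2] at hstep <;> rw [h1] at hstep2 <;>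
      rcases hS with h3 | h3 <;> first | (left; linarith) | (right; linarith)

end Pool.Agent.H89.FP
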