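import Pool.Agent.H89.FP.Enum
import Pool.Agent.H89.FP.DA
import Pool.Agent.H89.FP.DB
import Pool.Agent.H89.FP.DC
import Pool.Agent.H89.FP.DD

/-!
MP_fd220b_nt: all Farey intervals for `5 ≤ p ≤ 13`.
-/

set_option autoImplicit false

namespace Pool.Agent.H89.FP

/-- the Farey intervals below `1 / 2` of order `4` -/
def L5 : List (ℕ × ℕ × ℕ × ℕ) :=
  [(0, 1, 1, 4), (1, 3, 1, 2), (1, 4, 1, 3)]

theorem enum5 : enumC 5 L5 = true := by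
  decide +kernel

theorem all5 : ∀ x ∈ L5, ∃ big, chkC 5 x.1 x.2.1 x.2.2.1 x.2.2.2 big = true := by
  unfold L5
  simp only [List.forall_mem_cons, List.not_mem_nil, false_imp_iff, implies_true, and_true]
  exact ⟨⟨_, c5_0_1⟩,
    ⟨_, c5_1_3⟩,
    ⟨_, c5_1_4⟩⟩

theorem chk5 : Checked 5 :=
  checked_list L5 enum5 all5

/-- the Farey intervals below `1 / 2` of order `6` -/
def L7 : List (ℕ × ℕ × ℕ × ℕ) :=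
  [(0, 1, 1, 6), (1, 3, 2, 5), (1, 4, 1, 3), (2, 5, 1, 2), (1, 5, 1, 4), (1, 6, 1, 5)]

theorem enum7 : enumC 7 L7 = true := by
  decide +kernel

theorem all7 : ∀ x ∈ L7, ∃ big, chkC 7 x.1 x.2.1 x.2.2.1 x.2.2.2 big = true := by
  unfold L7
  simp only [List.forall_mem_cons, List.not_mem_nil, false_imp_iff, implies_true, and_true]
  exact ⟨⟨_, c7_0_1⟩,
    ⟨_, c7_1_3⟩,
    ⟨_, c7_1_4⟩,
    ⟨_, c7_2_5⟩,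
    ⟨_, c7_1_5⟩,
    ⟨_, c7_1_6⟩⟩

theorem chk7 : Checked 7 :=
  checked_list L7 enum7 all7

/-- the Farey intervals below `1 / 2` of order `7` -/
def L8 : List (ℕ × ℕ × ℕ × ℕ) :=
  [(0, 1, 1, 7), (1, 3, 2, 5), (1, 4, 2, 7), (1, 5, 1, 4), (2, 5, 3, 7), (1, 6, 1, 5), (3, 7, 1, 2),
  (2, 7, 1, 3), (1, 7, 1, 6)]

theorem enum8 : enumC 8 L8 = true := by
  decide +kernel

theorem all8 : ∀ x ∈ L8, ∃ big, chkC 8 x.1 x.2.1 x.2.2.1 x.2.2.2 big = true := by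
  unfold L8
  simp only [List.forall_mem_cons, List.not_mem_nil, false_imp_iff, implies_true, and_true]
  exact ⟨⟨_, c8_0_1⟩,
    ⟨_, c8_1_3⟩,
    ⟨_, c8_1_4⟩,
    ⟨_, c8_1_5⟩,
    ⟨_, c8_2_5⟩,
    ⟨_, c8_1_6⟩,
    ⟨_, c8_3_7⟩,
    ⟨_, c8_2_7⟩,
    ⟨_, c8_1_7⟩⟩

theorem chk8 : Checked 8 :=
  checked_list L8 enum8 all8

/-- the Farey intervals below `1 / 2` of order `8` -/
def L9 : List (ℕ × ℕ × ℕ × ℕ) :=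
  [(0, 1, 1, 8), (1, 3, 3, 8), (1, 4, 2, 7), (1, 5, 1, 4), (2, 5, 3, 7), (1, 6, 1, 5), (3, 7, 1, 2),
  (2, 7, 1, 3), (1, 7, 1, 6), (3, 8, 2, 5), (1, 8, 1, 7)]

theorem enum9 : enumC 9 L9 = true := by
  decide +kernel

theorem all9 : ∀ x ∈ L9, ∃ big, chkC 9 x.1 x.2.1 x.2.2.1 x.2.2.2 big = true := by
  unfold L9
  simp only [List.forall_mem_cons, List.not_mem_nil, false_imp_iff, implies_true, and_true]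
  exact ⟨⟨_, c9_0_1⟩,
    ⟨_, c9_1_3⟩,
    ⟨_, c9_1_4⟩,
    ⟨_, c9_1_5⟩,
    ⟨_, c9_2_5⟩,
    ⟨_, c9_1_6⟩,
    ⟨_, c9_3_7⟩,
    ⟨_, c9_2_7⟩,
    ⟨_, c9_1_7⟩,
    ⟨_, c9_3_8⟩,
    ⟨_, c9_1_8⟩⟩

theorem chk9 : Checked 9 :=
  checked_list L9 enum9 all9

/-- the Farey intervals below `1 / 2` of order `9` -/
def L10 : List (ℕ × ℕ × ℕ × ℕ) :=
  [(0, 1, 1, 9), (1, 3, 3, 8), (1, 4, 2, 7), (2, 5, 3, 7), (1, 5, 2, 9), (1, 6, 1, 5), (2, 7, 1, 3),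
  (1, 7, 1, 6), (3, 7, 4, 9), (3, 8, 2, 5), (1, 8, 1, 7), (4, 9, 1, 2), (2, 9, 1, 4), (1, 9, 1, 8)]

theorem enum10 : enumC 10 L10 = true := by
  decide +kernel

theorem all10 : ∀ x ∈ L10, ∃ big, chkC 10 x.1 x.2.1 x.2.2.1 x.2.2.2 big = true := by
  unfold L10
  simp only [List.forall_mem_cons, List.not_mem_nil, false_imp_iff, implies_true, and_true]
  exact ⟨⟨_, c10_0_1⟩,
    ⟨_, c10_1_3⟩,
    ⟨_, c10_1_4⟩,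
    ⟨_, c10_2_5⟩,
    ⟨_, c10_1_5⟩,
    ⟨_, c10_1_6⟩,
    ⟨_, c10_2_7⟩,
    ⟨_, c10_1_7⟩,
    ⟨_, c10_3_7⟩,
    ⟨_, c10_3_8⟩,
    ⟨_, c10_1_8⟩,
    ⟨_, c10_4_9⟩,
    ⟨_, c10_2_9⟩,
    ⟨_, c10_1_9⟩⟩

theorem chk10 : Checked 10 :=
  checked_list L10 enum10 all10

/-- the Farey intervals below `1 / 2` of order `10` -/
def L11 : List (ℕ × ℕ × ℕ × ℕ) :=
  [(0, 1, 1, 10), (1, 3, 3, 8), (1, 4, 2, 7), (2, 5, 3, 7), (1, 5, 2, 9), (1, 6, 1, 5), (1, 7, 1,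
  6), (3, 7, 4, 9), (2, 7, 3, 10), (3, 8, 2, 5), (1, 8, 1, 7), (4, 9, 1, 2), (2, 9, 1, 4), (1, 9, 1,
  8), (3, 10, 1, 3), (1, 10, 1, 9)]

theorem enum11 : enumC 11 L11 = true := by
  decide +kernel

theorem all11 : ∀ x ∈ L11, ∃ big, chkC 11 x.1 x.2.1 x.2.2.1 x.2.2.2 big = true := by
  unfold L11
  simp only [List.forall_mem_cons, List.not_mem_nil, false_imp_iff, implies_true, and_true]
  exact ⟨⟨_, c11_0_1⟩,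
    ⟨_, c11_1_3⟩,
    ⟨_, c11_1_4⟩,
    ⟨_, c11_2_5⟩,
    ⟨_, c11_1_5⟩,
    ⟨_, c11_1_6⟩,
    ⟨_, c11_1_7⟩,
    ⟨_, c11_3_7⟩,
    ⟨_, c11_2_7⟩,
    ⟨_, c11_3_8⟩,
    ⟨_, c11_1_8⟩,
    ⟨_, c11_4_9⟩,
    ⟨_, c11_2_9⟩,
    ⟨_, c11_1_9⟩,
    ⟨_, c11_3_10⟩,
    ⟨_, c11_1_10⟩⟩

theorem chk11 : Checked 11 :=
  checked_list L11 enum11 all11

/-- the Farey intervals below `1 / 2` of order `11` -/
def L12 : List (ℕ × ℕ × ℕ × ℕ) :=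
  [(0, 1, 1, 11), (1, 3, 4, 11), (1, 4, 3, 11), (2, 5, 3, 7), (1, 5, 2, 9), (1, 6, 2, 11), (1, 7, 1,
  6), (3, 7, 4, 9), (2, 7, 3, 10), (3, 8, 2, 5), (1, 8, 1, 7), (2, 9, 1, 4), (1, 9, 1, 8), (4, 9, 5,
  11), (3, 10, 1, 3), (1, 10, 1, 9), (5, 11, 1, 2), (2, 11, 1, 5), (3, 11, 2, 7), (4, 11, 3, 8), (1,
  11, 1, 10)]

theorem enum12 : enumC 12 L12 = true := by
  decide +kernel

theorem all12 : ∀ x ∈ L12, ∃ big, chkC 12 x.1 x.2.1 x.2.2.1 x.2.2.2 big = true := by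
  unfold L12
  simp only [List.forall_mem_cons, List.not_mem_nil, false_imp_iff, implies_true, and_true]
  exact ⟨⟨_, c12_0_1⟩,
    ⟨_, c12_1_3⟩,
    ⟨_, c12_1_4⟩,
    ⟨_, c12_2_5⟩,
    ⟨_, c12_1_5⟩,
    ⟨_, c12_1_6⟩,
    ⟨_, c12_1_7⟩,
    ⟨_, c12_3_7⟩,
    ⟨_, c12_2_7⟩,
    ⟨_, c12_3_8⟩,
    ⟨_, c12_1_8⟩,
    ⟨_, c12_2_9⟩,
    ⟨_, c12_1_9⟩,
    ⟨_, c12_4_9⟩,
    ⟨_, c12_3_10⟩,
    ⟨_, c12_1_10⟩,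
    ⟨_, c12_5_11⟩,
    ⟨_, c12_2_11⟩,
    ⟨_, c12_3_11⟩,
    ⟨_, c12_4_11⟩,
    ⟨_, c12_1_11⟩⟩

theorem chk12 : Checked 12 :=
  checked_list L12 enum12 all12

/-- the Farey intervals below `1 / 2` of order `12` -/
def L13 : List (ℕ × ℕ × ℕ × ℕ) :=
  [(0, 1, 1, 12), (1, 3, 4, 11), (1, 4, 3, 11), (1, 5, 2, 9), (2, 5, 5, 12), (1, 6, 2, 11), (1, 7,
  1, 6), (3, 7, 4, 9), (2, 7, 3, 10), (3, 8, 2, 5), (1, 8, 1, 7), (2, 9, 1, 4), (1, 9, 1, 8), (4, 9,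
  5, 11), (3, 10, 1, 3), (1, 10, 1, 9), (5, 11, 1, 2), (2, 11, 1, 5), (3, 11, 2, 7), (4, 11, 3, 8),
  (1, 11, 1, 10), (5, 12, 3, 7), (1, 12, 1, 11)]

theorem enum13 : enumC 13 L13 = true := by
  decide +kernel

theorem all13 : ∀ x ∈ L13, ∃ big, chkC 13 x.1 x.2.1 x.2.2.1 x.2.2.2 big = true := by
  unfold L13
  simp only [List.forall_mem_cons, List.not_mem_nil, false_imp_iff, implies_true, and_true]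
  exact ⟨⟨_, c13_0_1⟩,
    ⟨_, c13_1_3⟩,
    ⟨_, c13_1_4⟩,
    ⟨_, c13_1_5⟩,
    ⟨_, c13_2_5⟩,
    ⟨_, c13_1_6⟩,
    ⟨_, c13_1_7⟩,
    ⟨_, c13_3_7⟩,
    ⟨_, c13_2_7⟩,
    ⟨_, c13_3_8⟩,
    ⟨_, c13_1_8⟩,
    ⟨_, c13_2_9⟩,
    ⟨_, c13_1_9⟩,
    ⟨_, c13_4_9⟩,
    ⟨_, c13_3_10⟩,
    ⟨_, c13_1_10⟩,
    ⟨_, c13_5_11⟩,
    ⟨_, c13_2_11⟩,
    ⟨_, c13_3_11⟩,
    ⟨_, c13_4_11⟩,
    ⟨_, c13_1_11⟩,
    ⟨_, c13_5_12⟩,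
    ⟨_, c13_1_12⟩⟩

theorem chk13 : Checked 13 :=
  checked_list L13 enum13 all13

end Pool.Agent.H89.FP
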