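import Pool.Agent.H89.FP.Chamber

/-!
MP_fd220b_nt: enumeration of the Farey intervals.
-/

set_option autoImplicit false

namespace Pool.Agent.H89.FP

/-- the list `L` contains all Farey intervals of order `p - 1` below `1 / 2` -/
def enumC (p : ℕ) (L : List (ℕ × ℕ × ℕ × ℕ)) : Bool :=
  allB p fun a => allB p fun b => allB p fun a2 => allB p fun b2 =>
    decide (1 ≤ b ∧ 1 ≤ b2 ∧ p ≤ b + b2 ∧ a2 * b = a * b2 + 1 ∧ 2 * a2 ≤ b2 → (a, b, a2, b2) ∈ L)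

theorem enumC_spec {p : ℕ} {L : List (ℕ × ℕ × ℕ × ℕ)} (h : enumC p L = true) {a b a2 b2 : ℕ} (h1 : a < p)
    (h2 : b < p) (h3 : a2 < p) (h4 : b2 < p) (h5 : 1 ≤ b) (h6 : 1 ≤ b2) (h7 : p ≤ b + b2)
    (h8 : a2 * b = a * b2 + 1) (h9 : 2 * a2 ≤ b2) : (a, b, a2, b2) ∈ L :=
  of_decide_eq_true (allB_spec (allB_spec (allB_spec (allB_spec h a h1) b h2) a2 h3) b2 h4) ⟨h5, h6, h7, h8, h9⟩

theorem checked_list {p : ℕ} (L : List (ℕ × ℕ × ℕ × ℕ)) (h : enumC p L = true)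
    (H : ∀ x ∈ L, ∃ big, chkC p x.1 x.2.1 x.2.2.1 x.2.2.2 big = true) : Checked p :=
  checked_of fun a b a2 b2 h1 h2 h3 h4 h5 h6 h7 h8 h9 =>
    H (a, b, a2, b2) (enumC_spec h h1 h2 h3 h4 h5 h6 h7 h8 h9)

end Pool.Agent.H89.FP
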