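import Pool.Agent.H89.FP.Coeff3
import Pool.Agent.H89.FP.Chamber

/-!
MP_fd220b_nt: the conjecture for one `p`, from the finite check `Checked p`.
-/

set_option autoImplicit false

namespace Pool.Agent.H89.FP

open Finset Polynomial Pool.Agent.H84.FL

theorem main_of_checked {p : ℕ} (hp : 5 ≤ p) (H : Checked p) {q r : ℕ} (hpq : p < q) (hqr : q < r)
    (c1 : Nat.Coprime p q) (c2 : Nat.Coprime p r) (c3 : Nat.Coprime q r) {F : ℤ[X]} (hF : IsIE p q r F)
    (h1 : q % p ≠ 1) (h2 : q % p ≠ p - 1) (h3 : r % (p * q) ≠ 1) (h4 : r % (p * q) ≠ p * q - 1) :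
    ∃ n : ℕ, 2 ≤ |F.coeff n| := by
  have hN : 1 < p * q := by nlinarith
  have hNr : Nat.Coprime r (p * q) := Nat.Coprime.mul_right c2.symm c3.symm
  obtain ⟨m, -, hm⟩ := Nat.exists_mul_mod_eq_one_of_coprime hNr hN
  set w := m % (p * q) with hw
  have hwN : w < p * q := Nat.mod_lt _ (by omega)
  have hrw : r * w % (p * q) = 1 := by
    rw [hw, Nat.mul_mod_mod]
    exact hm
  clear_value w
  have hrwz : (r : ℤ) * w ≡ 1 [ZMOD (p : ℤ) * q] := by
    have e : ((r : ℤ) * w) % ((p : ℤ) * q) = 1 % ((p : ℤ) * q) := by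
      have e1 : ((r : ℤ) * w) % ((p : ℤ) * q) = ((r * w % (p * q) : ℕ) : ℤ) := by push_cast; rfl
      have e2 : (1 : ℤ) % ((p : ℤ) * q) = 1 := Int.emod_eq_of_lt (by norm_num) (by exact_mod_cast hN)
      rw [e1, hrw, e2]
      rfl
    exact e
  have hwcop : Nat.Coprime w (p * q) := by
    have h5 : Nat.Coprime (r * w) (p * q) := by
      have h6 : Nat.gcd (r * w) (p * q) = Nat.gcd 1 (p * q) := by
        have : r * w ≡ 1 [MOD p * q] := by
          unfold Nat.ModEq
          rw [hrw, Nat.mod_eq_of_lt hN]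
        exact Nat.ModEq.gcd_eq this
      unfold Nat.Coprime
      rw [h6, Nat.gcd_one_left]
    exact Nat.Coprime.coprime_mul_left h5
  have hwq : Nat.Coprime w q := Nat.Coprime.coprime_mul_left_right hwcop
  have hwp : Nat.Coprime w p := Nat.Coprime.coprime_mul_right_right hwcop
  have hq0 : 0 < q := by omega
  set w0 := w % q with hw0
  set c := w / q with hc
  have hdec : w0 + c * q = w := by
    rw [hw0, hc, Nat.mul_comm]
    exact Nat.mod_add_div w q
  have hw0q : w0 < q := Nat.mod_lt _ hq0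
  have hcp : c < p := by
    rw [hc]
    exact Nat.div_lt_of_lt_mul (by rw [Nat.mul_comm]; exact hwN)
  have cw0 : Nat.Coprime w0 q := by
    have h5 : Nat.gcd w0 q = Nat.gcd w q := by
      rw [hw0]
      exact Nat.ModEq.gcd_eq (Nat.mod_modEq w q)
    unfold Nat.Coprime
    rw [h5]
    exact hwq
  have hw0pos : 0 < w0 := by
    rcases Nat.eq_zero_or_pos w0 with h | h
    · exfalso
      rw [h] at cw0
      have : Nat.gcd 0 q = 1 := cw0
      rw [Nat.gcd_zero_left] at this
      omega
    · exact h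
  clear_value w0 c
  have hne1 : w ≠ 1 := by
    intro h
    rw [h, Nat.mul_one] at hrw
    exact h3 hrw
  have hne2 : p * q - w ≠ 1 := by
    intro h
    have h5 : w = p * q - 1 := by omega
    have h6 : (w : ℤ) = p * q - 1 := by
      rw [h5, Nat.cast_sub hN.le]
      push_cast
      ring
    rw [h6] at hrwz
    have h7 : (r : ℤ) ≡ (p * q - 1) [ZMOD (p : ℤ) * q] := by
      have h8 : (r : ℤ) * (p * q - 1) ≡ -r [ZMOD (p : ℤ) * q] := by
        rw [Int.modEq_iff_dvd]
        exact ⟨-r, by ring⟩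
      have h9 := (h8.symm.trans hrwz).neg
      rw [neg_neg] at h9
      refine h9.trans ?_
      rw [Int.modEq_iff_dvd]
      exact ⟨1, by ring⟩
    have h8 : (r : ℤ) % ((p : ℤ) * q) = (p * q - 1) % ((p : ℤ) * q) := h7
    have hNz : (1 : ℤ) < (p : ℤ) * q := by exact_mod_cast hN
    have h10 : ((p : ℤ) * q - 1) % ((p : ℤ) * q) = p * q - 1 := Int.emod_eq_of_lt (by linarith) (by linarith)
    rw [h10] at h8
    apply h4
    have h9 : ((r % (p * q) : ℕ) : ℤ) = ((p * q - 1 : ℕ) : ℤ) := by
      rw [Nat.cast_sub hN.le]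
      push_cast
      exact h8
    exact_mod_cast h9
  have key : ∃ lam : ℤ, (q : ℤ) * lam ≡ 1 [ZMOD p] ∧ Big p q lam w := by
    rcases Nat.lt_or_ge (2 * w0) q with h | h
    · obtain ⟨lam, k1, k2⟩ := big_half hp H hpq c1.symm h1 h2 hw0pos h hcp cw0 (by rw [hdec]; exact hwp)
        (by rw [hdec]; exact hne1)
      refine ⟨lam, k1, ?_⟩
      have e : (w : ℤ) = (w0 : ℤ) + c * q := by
        rw [← hdec]
        push_cast
        ring
      rw [e]
      exact k2
    · have h5 : 2 * w0 ≠ q := by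
        intro h6
        have h7 : w0 ∣ q := ⟨2, by rw [← h6]; ring⟩
        have h8 : Nat.gcd w0 q = w0 := Nat.gcd_eq_left h7
        have h9 : Nat.gcd w0 q = 1 := cw0
        omega
      have e1 : (q - w0) + (p - 1 - c) * q = p * q - w := by
        have e2 : (p - 1 - c) * q + (c + 1) * q = p * q := by
          rw [← Nat.add_mul]
          congr 1
          omega
        have e3 : (c + 1) * q = c * q + q := by ring
        omega
      have cc1 : Nat.Coprime (q - w0) q := (Nat.coprime_self_sub_left hw0q.le).2 cw0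
      have cc2 : Nat.Coprime (p * q - w) p := by
        have h7 : Nat.Coprime (p * q - w) (p * q) := (Nat.coprime_self_sub_left hwN.le).2 hwcop
        exact Nat.Coprime.coprime_mul_right_right h7
      obtain ⟨lam, k1, k2⟩ := big_half hp H (w0 := q - w0) (c := p - 1 - c) hpq c1.symm h1 h2 (by omega)
        (by omega) (by omega) cc1 (by rw [e1]; exact cc2) (by rw [e1]; exact hne2)
      refine ⟨lam, k1, ?_⟩
      refine Big.neg (k2.congr ?_)
      have e : ((q - w0 : ℕ) : ℤ) + ((p - 1 - c : ℕ) : ℤ) * q = p * q - w := by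
        have : (((q - w0) + (p - 1 - c) * q : ℕ) : ℤ) = ((p * q - w : ℕ) : ℤ) := by rw [e1]
        rw [Nat.cast_sub hwN.le] at this
        push_cast at this
        exact this
      rw [e, Int.modEq_iff_dvd]
      exact ⟨-1, by ring⟩
  obtain ⟨lam, k1, k2⟩ := key
  exact exists_coeff (by omega) hpq hqr k1 hrwz hF k2

end Pool.Agent.H89.FP
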