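import Mathlib

/-!
MP_fd220b_nt, flat ternary inclusion-exclusion polynomials: the sums `SS`, and their invariance when the second
parameter `q` is enlarged (lifting lemma).
-/

set_option autoImplicit false

namespace Pool.Agent.H89.FP

open Finset

/-- the time number `e` of the position `j` -/
def tt (p q w j e : ℤ) : ℤ := (j - w * e) % (p * q)

/-- `1` if `0 ≤ t < p q` belongs to the semigroup of `p, q` (`lam` is the inverse of `q` mod `p`) -/
def Gz (p q lam t : ℤ) : ℤ := if q * ((lam * t) % p) ≤ t then 1 else 0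

/-- the same for `t - 1` -/
def Gm (p q lam t : ℤ) : ℤ := if q * ((lam * t - lam) % p) < t then 1 else 0

/-- the coefficient `t` of the binary polynomial, cut off at `T` -/
def At (p q lam T t : ℤ) : ℤ := if t ≤ T then Gz p q lam t - Gm p q lam t else 0

/-- the partial sum at time `T` and position `j` -/
def SS (p : ℕ) (q lam w T j : ℤ) : ℤ :=
  ∑ e ∈ range p, (At p q lam T (tt p q w j e) - At p q lam T (tt p q w (j - w * q) e))

/-- there is a value of absolute value at least two, at a time in the column of one of the times of `j` -/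
def Vio (p : ℕ) (q lam w : ℤ) : Prop :=
  ∃ j T : ℤ, ∃ f : ℕ, f < p ∧ 0 ≤ T ∧ T < p * q ∧ T % q = (tt p q w j f) % q ∧ 2 ≤ |SS p q lam w T j|

theorem row_emod {p q m c : ℤ} (hp : 0 < p) (h0 : 0 ≤ c) (h1 : c < q) :
    (m * q + c) % (p * q) = (m % p) * q + c := by
  have hq : 0 < q := lt_of_le_of_lt h0 h1
  have e : m * q + c = ((m % p) * q + c) + (p * q) * (m / p) := by
    have := Int.emod_add_mul_ediv m p
    calc m * q + c = (m % p + p * (m / p)) * q + c := by rw [this]
      _ = _ := by ring
  have h2 : 0 ≤ m % p := Int.emod_nonneg _ hp.ne'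
  have h3 : m % p < p := Int.emod_lt_of_pos _ hp
  rw [e, Int.add_mul_emod_self_left]
  refine Int.emod_eq_of_lt (by positivity) ?_
  nlinarith

theorem Gz_row {p q lam r c : ℤ} (hp : 0 < p) (h0 : 0 ≤ c) (h1 : c < q) (hl : q * lam ≡ 1 [ZMOD p]) :
    Gz p q lam (r * q + c) = if (r + lam * c) % p ≤ r then 1 else 0 := by
  have hq : 0 < q := lt_of_le_of_lt h0 h1
  have e : (lam * (r * q + c)) % p = (r + lam * c) % p := by
    have h : lam * (r * q + c) ≡ r + lam * c [ZMOD p] := by
      have h2 := (hl.mul_left r).add_right (lam * c)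
      have e1 : lam * (r * q + c) = r * (q * lam) + lam * c := by ring
      rw [e1]
      simpa using h2
    exact h
  unfold Gz
  rw [e]
  congr 1
  apply propext
  constructor
  · intro h
    by_contra h2
    push Not at h2
    have : r + 1 ≤ (r + lam * c) % p := h2
    nlinarith
  · intro h
    nlinarith

theorem Gm_row {p q lam r c : ℤ} (hp : 1 < p) (h0 : 0 ≤ c) (h1 : c < q) (hl : q * lam ≡ 1 [ZMOD p]) :
    Gm p q lam (r * q + c) = if (r + lam * c - lam) % p ≤ r then 1 else 0 := by
  have hq : 0 < q := lt_of_le_of_lt h0 h1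
  have e : (lam * (r * q + c) - lam) % p = (r + lam * c - lam) % p := by
    have h : lam * (r * q + c) - lam ≡ r + lam * c - lam [ZMOD p] := by
      have h2 := ((hl.mul_left r).add_right (lam * c)).sub_right lam
      have e1 : lam * (r * q + c) - lam = r * (q * lam) + lam * c - lam := by ring
      rw [e1]
      simpa using h2
    exact h
  unfold Gm
  rw [e]
  set z := (r + lam * c - lam) % p with hz
  congr 1
  apply propext
  constructor
  · intro h
    by_contra h2
    push Not at h2
    have : r + 1 ≤ z := h2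
    nlinarith
  · intro h
    rcases lt_or_eq_of_le h with h2 | h2
    · have : z + 1 ≤ r := h2
      nlinarith
    · have hc : 0 < c := by
        rcases lt_or_eq_of_le h0 with h3 | h3
        · exact h3
        · exfalso
          have h4 : r + lam * c - lam ≡ r [ZMOD p] := by
            have h5 : (r + lam * c - lam) % p ≡ r + lam * c - lam [ZMOD p] := Int.mod_modEq _ _
            rw [← hz, h2] at h5
            exact h5.symm
          rw [← h3] at h4
          have h6 : (p : ℤ) ∣ lam := by
            have h7 := h4.dvd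
            have e2 : r - (r + lam * 0 - lam) = lam := by ring
            rwa [e2] at h7
          have h8 : (1 : ℤ) ≡ 0 [ZMOD p] := by
            have h9 : q * lam ≡ 0 [ZMOD p] := (Int.modEq_zero_iff_dvd).2 (Dvd.dvd.mul_left h6 q)
            exact hl.symm.trans h9
          have h10 := (Int.modEq_zero_iff_dvd).1 h8
          have h11 := Int.le_of_dvd one_pos h10
          omega
      rw [h2]
      nlinarith

/-- the cut off coefficient depends only on the row, the residue of the column and the comparison with `T` -/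
theorem At_eq {p q q' lam r c c' k d d' : ℤ} (hp : 1 < p) (h0 : 0 ≤ c) (h1 : c < q) (h0' : 0 ≤ c') (h1' : c' < q')
    (hd0 : 0 ≤ d) (hd1 : d < q) (hd0' : 0 ≤ d') (hd1' : d' < q') (hl : q * lam ≡ 1 [ZMOD p])
    (hl' : q' * lam ≡ 1 [ZMOD p]) (hc : c ≡ c' [ZMOD p]) (hcd : c ≤ d ↔ c' ≤ d') :
    At p q lam (k * q + d) (r * q + c) = At p q' lam (k * q' + d') (r * q' + c') := by
  have hq : 0 < q := lt_of_le_of_lt h0 h1
  have hq' : 0 < q' := lt_of_le_of_lt h0' h1'
  have key : ∀ (q c d : ℤ), 0 ≤ c → c < q → 0 ≤ d → d < q →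
      (r * q + c ≤ k * q + d ↔ r < k ∨ (r = k ∧ c ≤ d)) := by
    intro q c d h0 h1 h2 h3
    constructor
    · intro h
      rcases lt_trichotomy r k with h4 | h4 | h4
      · exact Or.inl h4
      · right
        subst h4
        exact ⟨rfl, by linarith⟩
      · exfalso
        have : k + 1 ≤ r := h4
        nlinarith
    · rintro (h4 | ⟨h4, h5⟩)
      · have : r + 1 ≤ k := h4
        nlinarith
      · subst h4
        linarith
  unfold At
  rw [Gz_row (by omega) h0 h1 hl, Gz_row (by omega) h0' h1' hl', Gm_row hp h0 h1 hl, Gm_row hp h0' h1' hl']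
  have e1 : (r + lam * c) % p = (r + lam * c') % p := (hc.mul_left lam).add_left r
  have e2 : (r + lam * c - lam) % p = (r + lam * c' - lam) % p := ((hc.mul_left lam).add_left r).sub_right lam
  rw [e1, e2]
  have e3 : (r * q + c ≤ k * q + d) = (r * q' + c' ≤ k * q' + d') := by
    apply propext
    rw [key q c d h0 h1 hd0 hd1, key q' c' d' h0' h1' hd0' hd1', hcd]
  simp only [e3]

/-- the value of the integer form `s w0 + t q` grows in absolute value -/
theorem mono {p a b a2 b2 A B A' B' s t : ℤ} (h1 : a2 * b - a * b2 = 1) (hb : 1 ≤ b) (hb2 : 1 ≤ b2)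
    (hbb : p ≤ b + b2) (hs : s < p) (hs' : -p < s) (hA : 1 ≤ A') (hAA : A' ≤ A) (hB : 1 ≤ B') (hBB : B' ≤ B) :
    (0 ≤ s * (a2 * A' + a * B') + t * (b2 * A' + b * B') →
      s * (a2 * A' + a * B') + t * (b2 * A' + b * B') ≤ s * (a2 * A + a * B) + t * (b2 * A + b * B)) ∧
    (s * (a2 * A' + a * B') + t * (b2 * A' + b * B') ≤ 0 →
      s * (a2 * A + a * B) + t * (b2 * A + b * B) ≤ s * (a2 * A' + a * B') + t * (b2 * A' + b * B')) := by
  set X := s * a2 + t * b2 with hX
  set Y := s * a + t * b with hY
  have e : b * X - b2 * Y = s := by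
    rw [hX, hY]
    linear_combination s * h1
  have e1 : ∀ A B : ℤ, s * (a2 * A + a * B) + t * (b2 * A + b * B) = A * X + B * Y := by
    intro A B
    rw [hX, hY]
    ring
  rw [e1, e1]
  have n1 : ¬ (0 < X ∧ Y < 0) := by
    rintro ⟨hx, hy⟩
    have : 1 ≤ X := hx
    have : Y ≤ -1 := by omega
    nlinarith
  have n2 : ¬ (X < 0 ∧ 0 < Y) := by
    rintro ⟨hx, hy⟩
    have : X ≤ -1 := by omega
    have : 1 ≤ Y := hy
    nlinarith
  constructor
  · intro h
    have hX0 : 0 ≤ X := by
      by_contra hx
      push Not at hx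
      have hy : Y ≤ 0 := by
        by_contra hy
        push Not at hy
        exact n2 ⟨hx, hy⟩
      nlinarith
    have hY0 : 0 ≤ Y := by
      by_contra hy
      push Not at hy
      have hx : X ≤ 0 := by
        by_contra hx
        push Not at hx
        exact n1 ⟨hx, hy⟩
      nlinarith
    nlinarith [mul_nonneg (sub_nonneg.2 hAA) hX0, mul_nonneg (sub_nonneg.2 hBB) hY0]
  · intro h
    have hX0 : X ≤ 0 := by
      by_contra hx
      push Not at hx
      have hy : 0 ≤ Y := by
        by_contra hy
        push Not at hy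
        exact n1 ⟨hx, hy⟩
      nlinarith
    have hY0 : Y ≤ 0 := by
      by_contra hy
      push Not at hy
      have hx : 0 ≤ X := by
        by_contra hx
        push Not at hx
        exact n2 ⟨hx, hy⟩
      nlinarith
    nlinarith [mul_nonneg (sub_nonneg.2 hAA) (neg_nonneg.2 hX0), mul_nonneg (sub_nonneg.2 hBB) (neg_nonneg.2 hY0)]

end Pool.Agent.H89.FP
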