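import Pool.Agent.H89.FP.Farey

/-!
MP_fd220b_nt: values of absolute value at least two for small `w` (the inverse of `r` modulo `p q`).
The generic case: `w` is not congruent to `1` or `- 1` modulo `p`.
-/

set_option autoImplicit false

namespace Pool.Agent.H89.FP

open Finset

/-- indicator function of the residues `y q`, `0 ≤ y ≤ R` (`lam` is the inverse of `q`) -/
def bb (p : ℕ) (lam : ZMod p) (R : ℕ) (x : ZMod p) : ℤ := if (lam * x).val ≤ R then 1 else 0

/-- the number of `i < k'` with `x - k i` in the set -/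
def FF (p : ℕ) (lam : ZMod p) (R : ℕ) (k : ZMod p) (k' : ℕ) (x : ZMod p) : ℤ :=
  ∑ i ∈ range k', bb p lam R (x - k * i)

theorem sum_bb {p : ℕ} [NeZero p] {lam q : ZMod p} (hl : q * lam = 1) {R : ℕ} (hR : R < p) :
    ∑ x : ZMod p, bb p lam R x = R + 1 := by
  have hlu : IsUnit lam := IsUnit.of_mul_eq_one q (by rw [mul_comm]; exact hl)
  have h1 : ∑ x : ZMod p, bb p lam R x = ∑ x : ZMod p, (if x.val ≤ R then (1 : ℤ) else 0) := by
    unfold bb
    exact (Equiv.sum_comp (Units.mulLeft hlu.unit) (fun x : ZMod p => if x.val ≤ R then (1 : ℤ) else 0))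
  rw [h1, Finset.sum_boole]
  have h2 : (univ.filter fun x : ZMod p => x.val ≤ R).card = R + 1 := by
    have h3 : (univ.filter fun x : ZMod p => x.val ≤ R) = (range (R + 1)).image (fun n : ℕ => (n : ZMod p)) := by
      ext x
      simp only [mem_filter, mem_univ, true_and, mem_image, mem_range]
      constructor
      · intro h
        exact ⟨x.val, by omega, ZMod.natCast_zmod_val x⟩
      · rintro ⟨n, hn, rfl⟩
        rw [ZMod.val_natCast_of_lt (by omega)]
        omega
    rw [h3, Finset.card_image_of_injOn, card_range]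
    intro a ha b hb hab
    simp only [coe_range, Set.mem_Iio] at ha hb
    have h4 := congrArg ZMod.val hab
    rwa [ZMod.val_natCast_of_lt (by omega), ZMod.val_natCast_of_lt (by omega)] at h4
  rw [h2]
  push_cast
  ring

theorem sum_FF {p : ℕ} [NeZero p] {lam q : ZMod p} (hl : q * lam = 1) {R : ℕ} (hR : R < p) (k : ZMod p) (k' : ℕ) :
    ∑ x : ZMod p, FF p lam R k k' x = k' * (R + 1) := by
  unfold FF
  rw [Finset.sum_comm]
  have : ∀ i ∈ range k', ∑ x : ZMod p, bb p lam R (x - k * i) = R + 1 := by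
    intro i _
    rw [← sum_bb hl hR]
    exact Equiv.sum_comp (Equiv.subRight (k * (i : ZMod p))) (bb p lam R)
  rw [Finset.sum_congr rfl this, Finset.sum_const, card_range, nsmul_eq_mul]

theorem shift_sum (g : ℕ → ℤ) (m n : ℕ) :
    ∑ i ∈ range m, (g i - g (i + n)) = ∑ i ∈ range n, g i - ∑ i ∈ range n, g (i + m) := by
  have h1 := Finset.sum_range_add g m n
  have h2 := Finset.sum_range_add g n m
  rw [Nat.add_comm n m] at h2
  rw [Finset.sum_sub_distrib]
  have e1 : ∀ i, g (n + i) = g (i + n) := fun i => by rw [Nat.add_comm]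
  have e2 : ∀ i, g (m + i) = g (i + m) := fun i => by rw [Nat.add_comm]
  simp only [e1, e2] at h1 h2
  linarith

/-- telescoping along the progression with difference `k` -/
theorem FF_sub {p : ℕ} {lam : ZMod p} {R : ℕ} {k : ZMod p} {k' : ℕ} (hk : k * k' = 1) (x : ZMod p) (m : ℕ) :
    ∑ i ∈ range m, (bb p lam R (x - k * i) - bb p lam R (x - k * i - 1)) =
      FF p lam R k k' x - FF p lam R k k' (x - k * m) := by
  have h := shift_sum (fun i : ℕ => bb p lam R (x - k * i)) m k'
  unfold FF
  have e1 : ∀ i : ℕ, x - k * ((i + k' : ℕ) : ZMod p) = x - k * i - 1 := by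
    intro i
    push_cast
    rw [mul_add, hk]
    ring
  have e2 : ∀ i : ℕ, x - k * ((i + m : ℕ) : ZMod p) = x - k * m - k * i := by
    intro i
    push_cast
    ring
  simp only [e1, e2] at h
  exact h

/-- two elements of the progression whose successors are not in it -/
theorem two_exits {p R l : ℕ} (h1 : 1 ≤ R) (h2 : R + 3 ≤ p) (h3 : 2 ≤ l) (h4 : l + 2 ≤ p) :
    ∃ y1 y2 : ℕ, y1 < y2 ∧ y2 ≤ R ∧ R < (y1 + l) % p ∧ R < (y2 + l) % p := by
  rcases Nat.lt_or_ge (R + l) p with h | h
  · refine ⟨R - 1, R, by omega, le_rfl, ?_, ?_⟩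
    · rw [Nat.mod_eq_of_lt (by omega)]
      omega
    · rw [Nat.mod_eq_of_lt h]
      omega
  · refine ⟨p - 2 - l, p - 1 - l, by omega, by omega, ?_, ?_⟩
    · rw [Nat.mod_eq_of_lt (by omega)]
      omega
    · rw [Nat.mod_eq_of_lt (by omega)]
      omega

/-- the counting function is not balanced -/
theorem FF_gap {p : ℕ} (hp : 1 < p) {q lam k : ZMod p} {k' R : ℕ} (hl : q * lam = 1) (hk : k * k' = 1)
    (hkR : k = R + 1) (h1 : 1 ≤ R) (h2 : R + 3 ≤ p) (h3 : 2 ≤ lam.val) (h4 : lam.val + 2 ≤ p) :
    ∃ x1 x2 : ZMod p, 2 ≤ FF p lam R k k' x1 - FF p lam R k k' x2 := by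
  haveI : NeZero p := ⟨by omega⟩
  haveI : Fact (1 < p) := ⟨hp⟩
  by_contra hcon
  push Not at hcon
  obtain ⟨x0, -, hx0⟩ := Finset.exists_min_image (univ : Finset (ZMod p)) (FF p lam R k k') ⟨0, mem_univ _⟩
  set c := FF p lam R k k' x0 with hc
  have hlow : ∀ x, c ≤ FF p lam R k k' x := fun x => hx0 x (mem_univ _)
  have hup : ∀ x, FF p lam R k k' x ≤ c + 1 := fun x => by
    have := hcon x x0
    omega
  -- the exits
  obtain ⟨y1, y2, hy, hyR, he1, he2⟩ := two_exits h1 h2 h3 h4
  have hexit : ∀ y : ℕ, y ≤ R → R < (y + lam.val) % p → FF p lam R k k' (q * y + 1 - k) = c + 1 := by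
    intro y hy1 hy2
    have h5 := FF_sub (lam := lam) (R := R) hk (q * (y : ZMod p) + 1) 1
    rw [Finset.sum_range_one] at h5
    simp only [Nat.cast_zero, mul_zero, sub_zero, Nat.cast_one, mul_one] at h5
    have e1 : q * (y : ZMod p) + 1 - 1 = q * y := by ring
    have e2 : lam * (q * (y : ZMod p)) = y := by
      rw [← mul_assoc, mul_comm lam q, hl, one_mul]
    have e3 : lam * (q * (y : ZMod p) + 1) = y + lam := by
      rw [mul_add, e2, mul_one]
    have e4 : bb p lam R (q * (y : ZMod p) + 1) = 0 := by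
      unfold bb
      rw [e3, if_neg]
      rw [ZMod.val_add, ZMod.val_natCast_of_lt (by omega)]
      omega
    have e5 : bb p lam R (q * (y : ZMod p) + 1 - 1) = 1 := by
      unfold bb
      rw [e1, e2, if_pos]
      rw [ZMod.val_natCast_of_lt (by omega)]
      exact hy1
    rw [e4, e5] at h5
    have h6 := hlow (q * (y : ZMod p) + 1)
    have h7 := hup (q * (y : ZMod p) + 1 - k)
    linarith
  have hd1 := hexit y1 (by omega) he1
  have hd2 := hexit y2 hyR he2
  have hne : q * (y1 : ZMod p) + 1 - k ≠ q * (y2 : ZMod p) + 1 - k := by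
    intro h
    have h5 : q * (y1 : ZMod p) = q * y2 := by
      linear_combination h
    have h6 : (y1 : ZMod p) = y2 := by
      have h7 : lam * (q * (y1 : ZMod p)) = lam * (q * y2) := by rw [h5]
      rw [← mul_assoc, ← mul_assoc, mul_comm lam q, hl, one_mul, one_mul] at h7
      exact h7
    have h7 := congrArg ZMod.val h6
    rw [ZMod.val_natCast_of_lt (by omega), ZMod.val_natCast_of_lt (by omega)] at h7
    omega
  -- counting
  set D := (univ : Finset (ZMod p)).filter (fun x => FF p lam R k k' x = c + 1) with hD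
  have hsum : ∑ x : ZMod p, FF p lam R k k' x = p * c + D.card := by
    have h5 : ∀ x : ZMod p, FF p lam R k k' x = c + (if FF p lam R k k' x = c + 1 then 1 else 0) := by
      intro x
      split_ifs with h
      · exact h
      · have := hlow x
        have := hup x
        omega
    rw [Finset.sum_congr rfl (fun x _ => h5 x), Finset.sum_add_distrib, Finset.sum_const, Finset.sum_boole,
      card_univ, ZMod.card, nsmul_eq_mul, hD]
  have hD2 : 2 ≤ D.card := by
    have h5 : ({q * (y1 : ZMod p) + 1 - k, q * (y2 : ZMod p) + 1 - k} : Finset (ZMod p)) ⊆ D := by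
      intro x hx
      rw [Finset.mem_insert, Finset.mem_singleton] at hx
      rw [hD, mem_filter]
      refine ⟨mem_univ _, ?_⟩
      rcases hx with rfl | rfl
      · exact hd1
      · exact hd2
    have h6 := Finset.card_le_card h5
    rwa [Finset.card_pair hne] at h6
  have hDp : D.card < p := by
    have h5 : D ⊂ univ := by
      rw [Finset.ssubset_univ_iff]
      intro h
      have : x0 ∈ D := by rw [h]; exact mem_univ _
      rw [hD, mem_filter] at this
      omega
    have h6 := Finset.card_lt_card h5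
    rwa [card_univ, ZMod.card] at h6
  rw [sum_FF hl (by omega)] at hsum
  have h8 : ((k' * (R + 1) : ℤ) : ZMod p) = 1 := by
    push_cast
    rw [← hkR, mul_comm]
    exact hk
  rw [hsum] at h8
  push_cast at h8
  rw [ZMod.natCast_self, zero_mul, zero_add] at h8
  have h9 := congrArg ZMod.val h8
  rw [ZMod.val_natCast_of_lt hDp, ZMod.val_one] at h9
  omega

end Pool.Agent.H89.FP
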