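import Pool.Agent.H89.FP.SmallW

/-!
MP_fd220b_nt: values of absolute value at least two for small `w` (the inverse of `r` modulo `p q`):
evaluation of the sums `SS`.
-/

set_option autoImplicit false

namespace Pool.Agent.H89.FP

open Finset

theorem At_bb {p : ℕ} {q lam : ℤ} {R : ℕ} (hp : 1 < p) (hl : q * lam ≡ 1 [ZMOD p]) {T t : ℤ}
    (h0 : R * q ≤ t) (h1 : t < (R + 1) * q) (hT : t ≤ T) :
    At p q lam T t = bb p (lam : ZMod p) R (t : ZMod p) - bb p (lam : ZMod p) R ((t : ZMod p) - 1) := by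
  have : NeZero p := ⟨by omega⟩
  have hq1 : ((q * lam : ℤ) : ZMod p) = 1 := by
    have := (ZMod.intCast_eq_intCast_iff _ _ p).2 hl
    simpa using this
  have ht : t = R * q + (t - R * q) := by ring
  unfold At
  rw [if_pos hT]
  set c := t - R * q with hc
  rw [ht, Gz_row (by omega) (by linarith) (by linarith) hl, Gm_row (by omega) (by linarith) (by linarith) hl]
  unfold bb
  have e1 : (lam : ZMod p) * ((R * q + c : ℤ) : ZMod p) = ((R + lam * c : ℤ) : ZMod p) := by
    push_cast
    push_cast at hq1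
    linear_combination (R : ZMod p) * hq1
  have e2 : (lam : ZMod p) * (((R * q + c : ℤ) : ZMod p) - 1) = ((R + lam * c - lam : ℤ) : ZMod p) := by
    rw [mul_sub, e1]
    push_cast
    ring
  rw [e1, e2]
  have e3 : ∀ a : ℤ, ((a : ZMod p).val ≤ R) = (a % (p : ℤ) ≤ R) := by
    intro a
    apply propext
    rw [← ZMod.val_intCast]
    exact Nat.cast_le.symm
  simp only [e3]

theorem At_gt {p q lam T t : ℤ} (h : T < t) : At p q lam T t = 0 := by
  unfold At
  rw [if_neg (by omega)]

theorem tt_eq {p q w j e v : ℤ} (s : ℤ) (h : j - w * e = v + p * q * s) (h0 : 0 ≤ v) (h1 : v < p * q) :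
    tt p q w j e = v := by
  unfold tt
  rw [h, Int.add_mul_emod_self_left]
  exact Int.emod_eq_of_lt h0 h1

theorem cast_lam {p : ℕ} {q lam : ℤ} (hl : q * lam ≡ 1 [ZMOD p]) : (q : ZMod p) * (lam : ZMod p) = 1 := by
  have := (ZMod.intCast_eq_intCast_iff _ _ p).2 hl
  push_cast at this
  exact this

/-- the generic case -/
theorem big_generic {p q k : ℕ} {lam : ℤ} (hkq : (k + 1) * (p - 1) < q)
    (hcop : Nat.Coprime k p) (h1 : 2 ≤ k % p) (h2 : k % p + 2 ≤ p) (hl : (q : ℤ) * lam ≡ 1 [ZMOD p])
    (h3 : 2 ≤ (lam : ZMod p).val) (h4 : (lam : ZMod p).val + 2 ≤ p) : Big p q lam k := by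
  have hp : 1 < p := by omega
  have : NeZero p := ⟨by omega⟩
  set L := k % p with hL
  obtain ⟨R, hR⟩ : ∃ R, L = R + 1 := ⟨L - 1, by omega⟩
  set s := k / p with hs
  have hk : k = R + 1 + p * s := by
    have := Nat.mod_add_div k p
    rw [← hL, hR, ← hs] at this
    exact this.symm
  have hkz : (k : ZMod p) * (((k : ZMod p)⁻¹.val : ℕ) : ZMod p) = 1 := by
    rw [ZMod.natCast_zmod_val]
    exact ZMod.coe_mul_inv_eq_one k hcop
  set k' := ((k : ZMod p)⁻¹).val with hk'
  have hkR : (k : ZMod p) = R + 1 := by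
    rw [hk]
    push_cast
    rw [ZMod.natCast_self, zero_mul, add_zero]
  have hql : ((q : ℤ) : ZMod p) * (lam : ZMod p) = 1 := cast_lam hl
  obtain ⟨x1, x2, hx⟩ := FF_gap hp (q := ((q : ℤ) : ZMod p)) (R := R) hql hkz hkR (by omega) (by omega) h3 h4
  -- the number of terms
  set m := ((x1 - x2) * (k' : ZMod p)).val with hm
  have hmp : m < p := ZMod.val_lt _
  have hmk : (k : ZMod p) * m = x1 - x2 := by
    rw [hm, ZMod.natCast_zmod_val]
    linear_combination (x1 - x2) * hkz
  have hm1 : 1 ≤ m := by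
    by_contra h
    have h5 : m = 0 := by omega
    rw [h5] at hmk
    have h6 : x1 = x2 := by
      have : x1 - x2 = 0 := by rw [← hmk]; simp
      exact sub_eq_zero.1 this
    rw [h6] at hx
    linarith
  obtain ⟨m', hm'⟩ : ∃ m', m = m' + 1 := ⟨m - 1, by omega⟩
  obtain ⟨e0, he0⟩ : ∃ e0, p = e0 + m := ⟨p - m, by omega⟩
  -- the time
  set d := (x1 - ((R * q + k * m' : ℕ) : ZMod p)).val with hd
  have hdp : d < p := ZMod.val_lt _
  set T : ℕ := R * q + k * m' + d with hT
  have hTx : (T : ZMod p) = x1 := by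
    rw [hT]
    push_cast
    rw [hd, ZMod.natCast_zmod_val]
    push_cast
    ring
  -- sizes
  have hp1 : p - 1 = e0 + m' := by omega
  have hsz : k * (e0 + m') + (p - 1) < q := by
    rw [← hp1]
    calc k * (p - 1) + (p - 1) = (k + 1) * (p - 1) := by ring
      _ < q := hkq
  have hsz2 : k * e0 + k * m' + d < q := by
    have : k * (e0 + m') = k * e0 + k * m' := by ring
    omega
  have hszZ : (k : ℤ) * e0 + k * m' + d < q := by exact_mod_cast hsz2
  have hTZ : (T : ℤ) = R * q + k * m' + d := by rw [hT]; push_cast; ring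
  have hRp : R + 2 < p := by omega
  have hRpZ : (R : ℤ) + 3 ≤ p := by exact_mod_cast (by omega : R + 3 ≤ p)
  have hq0 : (0 : ℤ) < q := by exact_mod_cast (by omega : 0 < q)
  have hk0 : (0 : ℤ) ≤ k := by positivity
  have hpq : (R : ℤ) * q + 3 * q ≤ p * q := by
    have := mul_le_mul_of_nonneg_right hRpZ hq0.le
    linarith
  have hRq0 : (0 : ℤ) ≤ R * q := by positivity
  have hkZ : (k : ℤ) = R + 1 + p * s := by exact_mod_cast hk
  have hpZ : (p : ℤ) = e0 + m' + 1 := by exact_mod_cast (by omega : p = e0 + m' + 1)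
  have hm'0 : (0 : ℤ) ≤ k * m' := by positivity
  have he0' : (0 : ℤ) ≤ k * e0 := by positivity
  have hd0 : (0 : ℤ) ≤ d := by positivity
  refine ⟨(T : ℤ) + k * e0, T, by positivity, ?_, ?_⟩
  · rw [hTZ]
    linarith
  -- the second window does not contribute
  have hsec : ∀ e ∈ range p, At p q lam T (tt p q k ((T : ℤ) + k * e0 - k * q) e) = 0 := by
    intro e he
    rw [mem_range] at he
    have he1 : (e : ℤ) ≤ e0 + m' := by exact_mod_cast (by omega : e ≤ e0 + m')
    have he2 : (k : ℤ) * e ≤ k * e0 + k * m' := by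
      have := mul_le_mul_of_nonneg_left he1 hk0
      linarith
    have he3 : (0 : ℤ) ≤ k * e := by positivity
    have hv : tt p q k ((T : ℤ) + k * e0 - k * q) e = T + k * e0 - k * e - (R + 1) * q + p * q := by
      refine tt_eq (-1 - s) ?_ ?_ ?_
      · have : (k : ℤ) * q = (R + 1 + p * s) * q := by rw [← hkZ]
        linear_combination -this
      · rw [hTZ]
        linarith
      · rw [hTZ]
        linarith
    rw [hv]
    apply At_gt
    rw [hTZ]
    linarith
  -- the first window
  have hfst : ∑ e ∈ range p, At p q lam T (tt p q k ((T : ℤ) + k * e0) e) =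
      FF p (lam : ZMod p) R k k' x1 - FF p (lam : ZMod p) R k k' x2 := by
    have hx2 : x2 = x1 - (k : ZMod p) * m := by
      rw [hmk]
      ring
    rw [hx2, ← FF_sub hkz x1 m]
    have hsplit : ∑ e ∈ range p, At p q lam T (tt p q k ((T : ℤ) + k * e0) e) =
        ∑ e ∈ range (e0 + m), At p q lam T (tt p q k ((T : ℤ) + k * e0) e) := by
      rw [← he0]
    rw [hsplit, Finset.sum_range_add]
    have hz : ∑ e ∈ range e0, At p q lam T (tt p q k ((T : ℤ) + k * e0) e) = 0 := by
      refine Finset.sum_eq_zero fun e he => ?_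
      rw [mem_range] at he
      have he1 : (e : ℤ) + 1 ≤ e0 := by exact_mod_cast he
      have he2 : (k : ℤ) * (e + 1) ≤ k * e0 := mul_le_mul_of_nonneg_left he1 hk0
      have hkpos : (0 : ℤ) < k := by
        rw [hkZ]
        positivity
      have he3 : (0 : ℤ) ≤ k * e := by positivity
      have hv : tt p q k ((T : ℤ) + k * e0) e = T + k * e0 - k * e := by
        refine tt_eq 0 (by ring) ?_ ?_
        · have : (0 : ℤ) ≤ T := by positivity
          linarith
        · rw [hTZ]
          linarith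
      rw [hv]
      apply At_gt
      linarith
    rw [hz, zero_add]
    refine Finset.sum_congr rfl fun i hi => ?_
    rw [mem_range] at hi
    have hi1 : (i : ℤ) ≤ m' := by exact_mod_cast (by omega : i ≤ m')
    have hi2 : (k : ℤ) * i ≤ k * m' := mul_le_mul_of_nonneg_left hi1 hk0
    have hi3 : (0 : ℤ) ≤ k * i := by positivity
    have hv : tt p q k ((T : ℤ) + k * e0) ((e0 + i : ℕ) : ℤ) = T - k * i := by
      refine tt_eq 0 (by push_cast; ring) ?_ ?_
      · rw [hTZ]
        linarith
      · rw [hTZ]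
        linarith
    have hbb := At_bb (R := R) hp hl (T := T) (t := T - k * i) (by rw [hTZ]; linarith)
      (by rw [hTZ]; linarith) (by linarith)
    rw [hv, hbb]
    have e1 : (((T : ℤ) - k * i : ℤ) : ZMod p) = x1 - (k : ZMod p) * i := by
      push_cast
      rw [hTx]
    rw [e1]
  have hSS : SS p q lam k T ((T : ℤ) + k * e0) =
      FF p (lam : ZMod p) R k k' x1 - FF p (lam : ZMod p) R k k' x2 := by
    unfold SS
    rw [Finset.sum_sub_distrib, hfst, Finset.sum_eq_zero hsec, sub_zero]
  rw [hSS]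
  exact le_trans hx (le_abs_self _)

end Pool.Agent.H89.FP
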