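import Pool.Agent.H89.FP.SmallW2

/-!
MP_fd220b_nt: values of absolute value at least two for small `w` (the inverse of `r` modulo `p q`):
the cases `w ≡ 1` and `w ≡ - 1` modulo `p`.
-/

set_option autoImplicit false

namespace Pool.Agent.H89.FP

open Finset

theorem bb_zero {p : ℕ} [NeZero p] {q lam : ZMod p} (hl : q * lam = 1) (x : ZMod p) :
    bb p lam 0 x = if x = 0 then 1 else 0 := by
  unfold bb
  have : ((lam * x).val ≤ 0) = (x = 0) := by
    apply propext
    rw [Nat.le_zero, ZMod.val_eq_zero]
    constructor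
    · intro h
      have h2 : q * (lam * x) = 0 := by rw [h, mul_zero]
      rwa [← mul_assoc, hl, one_mul] at h2
    · rintro rfl
      exact mul_zero _
  simp only [this]

/-- the first row -/
theorem At_row0 {p : ℕ} {q lam : ℤ} (hp : 1 < p) (hl : q * lam ≡ 1 [ZMOD p]) {T t : ℤ}
    (h0 : 0 ≤ t) (h1 : t < q) (hT : t ≤ T) :
    At p q lam T t = (if (t : ZMod p) = 0 then 1 else 0) - (if (t : ZMod p) = 1 then 1 else 0) := by
  have : NeZero p := ⟨by omega⟩
  rw [At_bb (R := 0) hp hl (by simpa using h0) (by simpa using h1) hT, bb_zero (cast_lam hl),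
    bb_zero (cast_lam hl)]
  simp only [sub_eq_zero]

theorem natCast_ne_zero {p a : ℕ} (h0 : 0 < a) (h1 : a < p) : (a : ZMod p) ≠ 0 := by
  intro h
  rw [ZMod.natCast_eq_zero_iff] at h
  exact absurd (Nat.le_of_dvd h0 h) (by omega)

/-- the case `w ≡ 1 (mod p)` -/
theorem big_one {p q k : ℕ} {lam : ℤ} (hp : 1 < p) (hkq : k * (p - 1) < q) (hk : k % p = 1) (hk1 : k ≠ 1)
    (hq : q % p ≠ p - 1) (hl : (q : ℤ) * lam ≡ 1 [ZMOD p]) : Big p q lam k := by
  have : NeZero p := ⟨by omega⟩
  have : Fact (1 < p) := ⟨hp⟩
  set s := k / p with hs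
  have hks : k = 1 + p * s := by
    have := Nat.mod_add_div k p
    rw [hk, ← hs] at this
    exact this.symm
  have hs1 : 1 ≤ s := by
    rcases Nat.eq_zero_or_pos s with h | h
    · exfalso
      rw [h] at hks
      exact hk1 (by simpa using hks)
    · exact h
  have hkp : p < k := by
    rw [hks]
    have := Nat.mul_le_mul_left p hs1
    omega
  have hkz : (k : ZMod p) = 1 := by
    rw [hks]
    push_cast
    rw [ZMod.natCast_self, zero_mul, add_zero]
  set e0 := (((q + 1 : ℕ) : ZMod p)).val with he0
  have he0p : e0 < p := ZMod.val_lt _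
  have he0z : (e0 : ZMod p) = q + 1 := by
    rw [he0, ZMod.natCast_zmod_val]
    push_cast
    rfl
  have he01 : 1 ≤ e0 := by
    by_contra h
    have h2 : e0 = 0 := by omega
    rw [h2, Nat.cast_zero] at he0z
    have h3 : ((q + 1 : ℕ) : ZMod p) = 0 := by
      push_cast
      exact he0z.symm
    rw [ZMod.natCast_eq_zero_iff] at h3
    apply hq
    have h4 : (q + 1) % p = 0 := Nat.mod_eq_zero_of_dvd h3
    have h5 : q % p < p := Nat.mod_lt _ (by omega)
    rw [Nat.add_mod, Nat.mod_eq_of_lt hp] at h4
    rcases Nat.lt_or_ge (q % p + 1) p with h6 | h6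
    · rw [Nat.mod_eq_of_lt h6] at h4
      omega
    · omega
  obtain ⟨f, hf⟩ : ∃ f, p = e0 + f + 1 := ⟨p - 1 - e0, by omega⟩
  have hsz : k * e0 + k * f < q := by
    have : p - 1 = e0 + f := by omega
    rw [this] at hkq
    linarith
  have hszZ : (k : ℤ) * e0 + k * f < q := by exact_mod_cast hsz
  have hk0 : (0 : ℤ) ≤ k := by positivity
  have hkpZ : (p : ℤ) < k := by exact_mod_cast hkp
  have hpZ : (1 : ℤ) < p := by exact_mod_cast hp
  have hkf0 : (0 : ℤ) ≤ k * f := by positivity
  have hke0 : (k : ℤ) * 1 ≤ k * e0 := mul_le_mul_of_nonneg_left (by exact_mod_cast he01) hk0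
  have hq0 : (0 : ℤ) < q := by linarith
  have hpq : 2 * (q : ℤ) ≤ p * q := mul_le_mul_of_nonneg_right (by linarith) hq0.le
  have hksZ : (k : ℤ) = 1 + p * s := by exact_mod_cast hks
  set T : ℤ := q + 1 - k * e0 with hT
  have hT1 : 1 < T := by
    rw [hT]
    linarith
  refine ⟨q + 1, T, by linarith, by linarith, ?_⟩
  have hfst : ∑ e ∈ range p, At p q lam T (tt p q k ((q : ℤ) + 1) e) = 1 := by
    have hval : ∀ e ∈ range p, tt p q k ((q : ℤ) + 1) e = q + 1 - k * e := by
      intro e he
      rw [mem_range] at he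
      have he1 : (e : ℤ) ≤ e0 + f := by exact_mod_cast (by omega : e ≤ e0 + f)
      have he2 : (k : ℤ) * e ≤ k * e0 + k * f := by
        have := mul_le_mul_of_nonneg_left he1 hk0
        linarith
      have he3 : (0 : ℤ) ≤ k * e := by positivity
      exact tt_eq 0 (by ring) (by linarith) (by linarith)
    rw [Finset.sum_eq_single_of_mem e0 (mem_range.2 he0p)]
    · rw [hval e0 (mem_range.2 he0p), At_row0 hp hl (by linarith) (by linarith) (by rw [hT])]
      have e1 : (((q : ℤ) + 1 - k * e0 : ℤ) : ZMod p) = 0 := by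
        push_cast
        rw [hkz, he0z]
        ring
      rw [e1, if_pos rfl, if_neg zero_ne_one]
      norm_num
    · intro e he hne
      rw [hval e he]
      rw [mem_range] at he
      rcases Nat.lt_or_ge e e0 with h | h
      · apply At_gt
        have h2 : (k : ℤ) * (e + 1) ≤ k * e0 := mul_le_mul_of_nonneg_left (by exact_mod_cast h) hk0
        rw [hT]
        linarith
      · obtain ⟨g, hg⟩ : ∃ g, e = e0 + g := ⟨e - e0, by omega⟩
        have hg1 : 1 ≤ g := by omega
        have h2 : (k : ℤ) * e0 ≤ k * e := mul_le_mul_of_nonneg_left (by exact_mod_cast h) hk0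
        have h3 : (k : ℤ) * e ≤ k * e0 + k * f := by
          have := mul_le_mul_of_nonneg_left (show (e : ℤ) ≤ e0 + f by exact_mod_cast (by omega : e ≤ e0 + f)) hk0
          linarith
        rw [At_row0 hp hl (by linarith) (by linarith) (by rw [hT]; linarith)]
        have e1 : (((q : ℤ) + 1 - k * e : ℤ) : ZMod p) = -(g : ZMod p) := by
          rw [hg]
          push_cast
          rw [hkz, he0z]
          ring
        rw [e1, if_neg, if_neg]
        · norm_num
        · intro h4
          have h5 : ((g + 1 : ℕ) : ZMod p) = 0 := by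
            push_cast
            rw [← h4]
            ring
          exact natCast_ne_zero (by omega) (by omega) h5
        · intro h4
          have h5 : ((g : ℕ) : ZMod p) = 0 := neg_eq_zero.1 h4
          exact natCast_ne_zero (by omega) (by omega) h5
  have hsnd : ∑ e ∈ range p, At p q lam T (tt p q k ((q : ℤ) + 1 - k * q) e) = -1 := by
    rw [Finset.sum_eq_single_of_mem 0 (mem_range.2 (by omega))]
    · have hv : tt p q k ((q : ℤ) + 1 - k * q) ((0 : ℕ) : ℤ) = 1 := by
        refine tt_eq (-s) ?_ (by norm_num) (by linarith)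
        rw [hksZ]
        push_cast
        ring
      rw [hv, At_row0 hp hl (by norm_num) (by linarith) hT1.le]
      push_cast
      rw [if_neg one_ne_zero, if_pos rfl]
      norm_num
    · intro e he hne
      rw [mem_range] at he
      have he1 : (e : ℤ) ≤ e0 + f := by exact_mod_cast (by omega : e ≤ e0 + f)
      have he2 : (k : ℤ) * e ≤ k * e0 + k * f := by
        have := mul_le_mul_of_nonneg_left he1 hk0
        linarith
      have he3 : (k : ℤ) * 1 ≤ k * e :=
        mul_le_mul_of_nonneg_left (by exact_mod_cast (by omega : 1 ≤ e)) hk0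
      have hv : tt p q k ((q : ℤ) + 1 - k * q) e = p * q + 1 - k * e := by
        refine tt_eq (-s - 1) ?_ (by linarith) (by linarith)
        have : (k : ℤ) * q = (1 + p * s) * q := by rw [← hksZ]
        linear_combination -this
      rw [hv]
      apply At_gt
      rw [hT]
      linarith
  have hSS : SS p q lam k T ((q : ℤ) + 1) = 2 := by
    unfold SS
    rw [Finset.sum_sub_distrib, hfst, hsnd]
    norm_num
  rw [hSS]
  norm_num

/-- the case `w ≡ - 1 (mod p)` -/
theorem big_neg {p q k : ℕ} {lam : ℤ} (hp : 1 < p) (hkq : k * (p - 1) < q) (hk : k % p = p - 1)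
    (hq : q % p ≠ 1) (hl : (q : ℤ) * lam ≡ 1 [ZMOD p]) : Big p q lam k := by
  have : NeZero p := ⟨by omega⟩
  have : Fact (1 < p) := ⟨hp⟩
  set s := k / p with hs
  have hks : k + 1 = p * (s + 1) := by
    have := Nat.mod_add_div k p
    rw [hk, ← hs] at this
    rw [← this, Nat.mul_add]
    omega
  have hkz : (k : ZMod p) = -1 := by
    have h2 : ((k + 1 : ℕ) : ZMod p) = 0 := by
      rw [hks]
      push_cast
      rw [ZMod.natCast_self, zero_mul]
    push_cast at h2
    linear_combination h2
  have hk1 : 1 ≤ k := by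
    by_contra h
    have : k = 0 := by omega
    rw [this, Nat.zero_mod] at hk
    omega
  set e0 := ((1 - (q : ZMod p))).val with he0
  have he0p : e0 < p := ZMod.val_lt _
  have he0z : (e0 : ZMod p) = 1 - q := by
    rw [he0, ZMod.natCast_zmod_val]
  have he01 : 1 ≤ e0 := by
    by_contra h
    have h2 : e0 = 0 := by omega
    rw [h2, Nat.cast_zero] at he0z
    have h3 : (q : ZMod p) = ((1 : ℕ) : ZMod p) := by
      push_cast
      linear_combination he0z
    rw [ZMod.natCast_eq_natCast_iff'] at h3
    rw [Nat.mod_eq_of_lt hp] at h3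
    exact hq h3
  obtain ⟨f, hf⟩ : ∃ f, p = e0 + f + 1 := ⟨p - 1 - e0, by omega⟩
  have hsz : k * e0 + k * f < q := by
    have : p - 1 = e0 + f := by omega
    rw [this] at hkq
    linarith
  have hszZ : (k : ℤ) * e0 + k * f < q := by exact_mod_cast hsz
  have hk0 : (0 : ℤ) ≤ k := by positivity
  have hk1Z : (1 : ℤ) ≤ k := by exact_mod_cast hk1
  have hpZ : (1 : ℤ) < p := by exact_mod_cast hp
  have hkf0 : (0 : ℤ) ≤ k * f := by positivity
  have hke0 : (k : ℤ) * 1 ≤ k * e0 := mul_le_mul_of_nonneg_left (by exact_mod_cast he01) hk0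
  have hq0 : (0 : ℤ) < q := by linarith
  have hpq : 2 * (q : ℤ) ≤ p * q := mul_le_mul_of_nonneg_right (by linarith) hq0.le
  have hksZ : (k : ℤ) + 1 = p * (s + 1) := by exact_mod_cast hks
  set T : ℤ := q - k * e0 with hT
  have hT1 : 0 < T := by
    rw [hT]
    linarith
  refine ⟨0, T, by linarith, by linarith, ?_⟩
  have hfst : ∑ e ∈ range p, At p q lam T (tt p q k 0 e) = 1 := by
    rw [Finset.sum_eq_single_of_mem 0 (mem_range.2 (by omega))]
    · have hv : tt p q k 0 ((0 : ℕ) : ℤ) = 0 := by
        refine tt_eq 0 ?_ le_rfl (by linarith)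
        push_cast
        ring
      rw [hv, At_row0 hp hl le_rfl (by linarith) hT1.le]
      push_cast
      rw [if_pos rfl, if_neg zero_ne_one]
      norm_num
    · intro e he hne
      rw [mem_range] at he
      have he1 : (e : ℤ) ≤ e0 + f := by exact_mod_cast (by omega : e ≤ e0 + f)
      have he2 : (k : ℤ) * e ≤ k * e0 + k * f := by
        have := mul_le_mul_of_nonneg_left he1 hk0
        linarith
      have he3 : (k : ℤ) * 1 ≤ k * e :=
        mul_le_mul_of_nonneg_left (by exact_mod_cast (by omega : 1 ≤ e)) hk0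
      have hv : tt p q k 0 e = p * q - k * e := by
        refine tt_eq (-1) (by ring) (by linarith) (by linarith)
      rw [hv]
      apply At_gt
      rw [hT]
      linarith
  have hsnd : ∑ e ∈ range p, At p q lam T (tt p q k (0 - (k : ℤ) * q) e) = -1 := by
    have hval : ∀ e ∈ range p, tt p q k (0 - (k : ℤ) * q) e = q - k * e := by
      intro e he
      rw [mem_range] at he
      have he1 : (e : ℤ) ≤ e0 + f := by exact_mod_cast (by omega : e ≤ e0 + f)
      have he2 : (k : ℤ) * e ≤ k * e0 + k * f := by
        have := mul_le_mul_of_nonneg_left he1 hk0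
        linarith
      have he3 : (0 : ℤ) ≤ k * e := by positivity
      refine tt_eq (-(s + 1)) ?_ (by linarith) (by linarith)
      linear_combination -(q : ℤ) * hksZ
    rw [Finset.sum_eq_single_of_mem e0 (mem_range.2 he0p)]
    · rw [hval e0 (mem_range.2 he0p), At_row0 hp hl (by linarith) (by linarith) (by rw [hT])]
      have e1 : (((q : ℤ) - k * e0 : ℤ) : ZMod p) = 1 := by
        push_cast
        rw [hkz, he0z]
        ring
      rw [e1, if_neg one_ne_zero, if_pos rfl]
      norm_num
    · intro e he hne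
      rw [hval e he]
      rw [mem_range] at he
      rcases Nat.lt_or_ge e e0 with h | h
      · apply At_gt
        have h2 : (k : ℤ) * (e + 1) ≤ k * e0 := mul_le_mul_of_nonneg_left (by exact_mod_cast h) hk0
        rw [hT]
        linarith
      · obtain ⟨g, hg⟩ : ∃ g, e = e0 + g := ⟨e - e0, by omega⟩
        have hg1 : 1 ≤ g := by omega
        have h2 : (k : ℤ) * e0 ≤ k * e := mul_le_mul_of_nonneg_left (by exact_mod_cast h) hk0
        have h3 : (k : ℤ) * e ≤ k * e0 + k * f := by
          have := mul_le_mul_of_nonneg_left (show (e : ℤ) ≤ e0 + f by exact_mod_cast (by omega : e ≤ e0 + f)) hk0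
          linarith
        rw [At_row0 hp hl (by linarith) (by linarith) (by rw [hT]; linarith)]
        have e1 : (((q : ℤ) - k * e : ℤ) : ZMod p) = ((g + 1 : ℕ) : ZMod p) := by
          rw [hg]
          push_cast
          rw [hkz, he0z]
          ring
        rw [e1, if_neg, if_neg]
        · norm_num
        · intro h4
          have h5 : ((g : ℕ) : ZMod p) = 0 := by
            push_cast at h4
            linear_combination h4
          exact natCast_ne_zero (by omega) (by omega) h5
        · intro h4
          exact natCast_ne_zero (by omega) (by omega) h4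
  have hSS : SS p q lam k T 0 = 2 := by
    unfold SS
    rw [Finset.sum_sub_distrib, hfst, hsnd]
    norm_num
  rw [hSS]
  norm_num

end Pool.Agent.H89.FP
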