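import Pool.Agent.H89.FP.SmallW3
import Pool.Agent.H89.FP.Coeff3

/-!
MP_fd220b_nt: values of absolute value at least two for small `w` (the inverse of `r` modulo `p q`): all cases,
and the coefficients.
-/

set_option autoImplicit false

namespace Pool.Agent.H89.FP

open Finset Polynomial Pool.Agent.H84.FL

theorem big_small {p q k : ℕ} {lam : ℤ} (hp : 1 < p) (hk : 2 ≤ k) (hkq : (k + 1) * (p - 1) < q)
    (hcop : Nat.Coprime k p) (hl : (q : ℤ) * lam ≡ 1 [ZMOD p])
    (hcond : ¬ ((q % p = 1 ∨ q % p = p - 1) ∧ (k % p = 1 → q % p = p - 1) ∧ (k % p = p - 1 → q % p = 1))) :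
    Big p q lam k := by
  have : NeZero p := ⟨by omega⟩
  have : Fact (1 < p) := ⟨hp⟩
  have hkq2 : k * (p - 1) < q := by
    have : (k + 1) * (p - 1) = k * (p - 1) + (p - 1) := by ring
    omega
  by_cases a : k % p = 1
  · by_cases b : q % p = p - 1
    · exact absurd ⟨Or.inr b, fun _ => b, fun c => by omega⟩ hcond
    · exact big_one hp hkq2 a (by omega) b hl
  · by_cases a2 : k % p = p - 1
    · by_cases b : q % p = 1
      · exact absurd ⟨Or.inl b, fun c => absurd c a, fun _ => b⟩ hcond
      · exact big_neg hp hkq2 a2 b hl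
    · have hq1 : q % p ≠ 1 := fun h => hcond ⟨Or.inl h, fun c => absurd c a, fun c => absurd c a2⟩
      have hq2 : q % p ≠ p - 1 := fun h => hcond ⟨Or.inr h, fun c => absurd c a, fun c => absurd c a2⟩
      have hk0 : k % p ≠ 0 := by
        intro h
        have h2 : p ∣ k := Nat.dvd_of_mod_eq_zero h
        have h3 : Nat.gcd k p = p := Nat.gcd_eq_right h2
        have h4 : Nat.gcd k p = 1 := hcop
        omega
      have hklt : k % p < p := Nat.mod_lt _ (by omega)
      have hz : ((q : ℤ) : ZMod p) * (lam : ZMod p) = 1 := cast_lam hl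
      have hlt : (lam : ZMod p).val < p := ZMod.val_lt _
      have v0 : (lam : ZMod p).val ≠ 0 := by
        intro h
        rw [ZMod.val_eq_zero] at h
        rw [h, mul_zero] at hz
        exact zero_ne_one hz
      have v1 : (lam : ZMod p).val ≠ 1 := by
        intro h
        have h2 : (lam : ZMod p) = ((1 : ℕ) : ZMod p) := by
          rw [← h, ZMod.natCast_zmod_val]
        rw [h2, Nat.cast_one, mul_one] at hz
        have h3 : (q : ZMod p) = ((1 : ℕ) : ZMod p) := by
          push_cast
          simpa using hz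
        rw [ZMod.natCast_eq_natCast_iff', Nat.mod_eq_of_lt hp] at h3
        exact hq1 h3
      have v2 : (lam : ZMod p).val ≠ p - 1 := by
        intro h
        have h2 : (lam : ZMod p) = -1 := by
          have h4 : (lam : ZMod p) = ((p - 1 : ℕ) : ZMod p) := by
            rw [← h, ZMod.natCast_zmod_val]
          rw [h4, Nat.cast_sub hp.le, ZMod.natCast_self]
          push_cast
          ring
        rw [h2] at hz
        have h3 : (q : ZMod p) = ((p - 1 : ℕ) : ZMod p) := by
          rw [Nat.cast_sub hp.le, ZMod.natCast_self]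
          push_cast at hz ⊢
          linear_combination -hz
        rw [ZMod.natCast_eq_natCast_iff', Nat.mod_eq_of_lt (show p - 1 < p by omega)] at h3
        exact hq2 h3
      exact big_generic hkq hcop (by omega) (by omega) hl (by omega) (by omega)

/-- a coefficient of absolute value at least two -/
theorem coeff_small {p q r k : ℕ} (hp : 1 < p) (hpq : p < q) (hqr : q < r) (cpq : Nat.Coprime p q) (hk : 2 ≤ k)
    (hkq : (k + 1) * (p - 1) < q)
    (hkr : (k : ℤ) * r ≡ 1 [ZMOD (p * q)] ∨ (k : ℤ) * r ≡ -1 [ZMOD (p * q)])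
    {F : ℤ[X]} (hF : IsIE p q r F)
    (hcond : ¬ ((q % p = 1 ∨ q % p = p - 1) ∧ (k % p = 1 → q % p = p - 1) ∧ (k % p = p - 1 → q % p = 1))) :
    ∃ n : ℕ, 2 ≤ |F.coeff n| := by
  have : NeZero p := ⟨by omega⟩
  -- the inverse of `q`
  obtain ⟨lam, hl⟩ : ∃ lam : ℤ, (q : ℤ) * lam ≡ 1 [ZMOD p] := by
    refine ⟨(((q : ZMod p)⁻¹).val : ℤ), ?_⟩
    rw [← ZMod.intCast_eq_intCast_iff]
    push_cast
    rw [ZMod.natCast_zmod_val]
    exact ZMod.coe_mul_inv_eq_one q cpq.symm
  have hcop : Nat.Coprime k p := by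
    have h1 : IsCoprime (k : ℤ) (p : ℤ) := by
      rcases hkr with h | h
      · rw [Int.modEq_iff_dvd] at h
        obtain ⟨c, hc⟩ := h
        exact ⟨r, q * c, by linear_combination -hc⟩
      · rw [Int.modEq_iff_dvd] at h
        obtain ⟨c, hc⟩ := h
        exact ⟨-r, -(q * c), by linear_combination hc⟩
    exact_mod_cast h1
  have hb := big_small hp hk hkq hcop hl hcond
  rcases hkr with h | h
  · refine exists_coeff (w := k) hp hpq hqr hl ?_ hF hb
    rw [mul_comm (r : ℤ) k]
    exact h
  · refine exists_coeff (w := -k) hp hpq hqr hl ?_ hF (Big.neg (by rwa [neg_neg]))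
    have h2 := h.neg
    rw [neg_neg] at h2
    have e : (r : ℤ) * -k = -(k * r) := by ring
    rw [e]
    exact h2

end Pool.Agent.H89.FP
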